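import Mathlib

set_option autoImplicit false

/-!
A counterexample to phase invariance of absolute continuity between Riesz products.

The frequencies come in pairs `N_k, 3 N_k` with `N_{k+1} = (2 m_k + 5) N_k`, where `m_k` is about
`k^(2/3)`. The amplitudes are `1 - 1/(2 m_k)` (for `a`) or `1 - 1/m_k` (for `b`) at `N_k`, and
`1 - 1/m_k` (for both) at `3 N_k`. With all phases zero, both factors of a block almost vanish at
the same point, the products are equivalent. Adding the phase `π` at the frequencies `3 N_k`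
makes the products mutually singular.
-/

namespace Pool.Agent.Results.MP_b30265_an.PhaseDependence

open MeasureTheory Filter Topology Finset

/-- `0 < 2π`, which Mathlib's circle `AddCircle (2 * Real.pi)` asks for. -/
instance instTwoPi : Fact (0 < 2 * Real.pi) := ⟨Real.two_pi_pos⟩

/-- `μ` is the Riesz product `∏ₙ (1 + Re (aₙ e^{i (λₙ x + φₙ)}))` on the circle `ℝ / 2πℤ`: it is a
finite positive measure and it is the weak-* limit, as `N → ∞`, of the measures
`∏_{n < N} (1 + Re (aₙ e^{i (λₙ x + φₙ)})) dx / 2π`. Here `fourier k x = e^{i k x}` and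
`AddCircle.haarAddCircle` is `dx / 2π`. -/
def IsRieszProduct (lam : ℕ → ℕ) (a : ℕ → ℂ) (φ : ℕ → ℝ)
    (μ : Measure (AddCircle (2 * Real.pi))) : Prop :=
  IsFiniteMeasure μ ∧ ∀ f : C(AddCircle (2 * Real.pi), ℝ),
    Tendsto (fun N : ℕ => ∫ x, f x * ∏ n ∈ range N,
      (1 + (a n * Complex.exp (Complex.I * φ n) * fourier (lam n : ℤ) x).re)
        ∂(AddCircle.haarAddCircle : Measure (AddCircle (2 * Real.pi)))) atTop (𝓝 (∫ x, f x ∂μ))

/-- The circle `ℝ / 2πℤ`. -/
abbrev TT : Type := AddCircle (2 * Real.pi)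

/-- Normalised Haar measure `dx / 2π`. -/
noncomputable abbrev mm : Measure TT := AddCircle.haarAddCircle

/-- Trigonometric polynomials of degree at most `M`. -/
noncomputable def TP (M : ℕ) : Submodule ℂ C(TT, ℂ) := Submodule.span ℂ (fourier '' {n : ℤ | |n| ≤ M})

/-- Real trigonometric polynomials of degree at most `M`. -/
def RTP (M : ℕ) (f : TT → ℝ) : Prop := ∃ g ∈ TP M, ∀ x, g x = (f x : ℂ)

theorem TP_mono {M M' : ℕ} (h : M ≤ M') : TP M ≤ TP M' := by
  apply Submodule.span_mono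
  apply Set.image_mono
  intro n hn
  simp only [Set.mem_ofPred_eq] at hn ⊢
  exact hn.trans (by exact_mod_cast h)

theorem fourier_mem_TP {M : ℕ} {n : ℤ} (h : |n| ≤ M) : fourier n ∈ TP M :=
  Submodule.subset_span ⟨n, h, rfl⟩

theorem one_eq_fourier : (1 : C(TT, ℂ)) = fourier 0 := by
  ext x
  rw [fourier_zero]
  rfl

theorem TP_mul {M M' : ℕ} {f g : C(TT, ℂ)} (hf : f ∈ TP M) (hg : g ∈ TP M') :
    f * g ∈ TP (M + M') := by
  have h := Submodule.mul_mem_mul hf hg
  rw [TP, TP, Submodule.span_mul_span] at h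
  refine Submodule.span_mono ?_ h
  rintro _ ⟨_, ⟨n, hn, rfl⟩, _, ⟨m, hm, rfl⟩, rfl⟩
  refine ⟨n + m, ?_, ?_⟩
  · simp only [Set.mem_ofPred_eq] at hn hm ⊢
    push_cast
    exact (abs_add_le n m).trans (add_le_add hn hm)
  · ext x
    rw [fourier_add]
    rfl

theorem RTP.mono {M M' : ℕ} (h : M ≤ M') {f : TT → ℝ} (hf : RTP M f) : RTP M' f := by
  obtain ⟨g, hg, hgf⟩ := hf
  exact ⟨g, TP_mono h hg, hgf⟩

theorem RTP.mul {M M' : ℕ} {f g : TT → ℝ} (hf : RTP M f) (hg : RTP M' g) :
    RTP (M + M') (fun x => f x * g x) := by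
  obtain ⟨f', hf', hff⟩ := hf
  obtain ⟨g', hg', hgg⟩ := hg
  refine ⟨f' * g', TP_mul hf' hg', ?_⟩
  intro x
  rw [ContinuousMap.mul_apply, hff, hgg]
  push_cast
  rfl

theorem RTP.add {M : ℕ} {f g : TT → ℝ} (hf : RTP M f) (hg : RTP M g) :
    RTP M (fun x => f x + g x) := by
  obtain ⟨f', hf', hff⟩ := hf
  obtain ⟨g', hg', hgg⟩ := hg
  refine ⟨f' + g', Submodule.add_mem _ hf' hg', ?_⟩
  intro x
  rw [ContinuousMap.add_apply, hff, hgg]
  push_cast
  rfl

theorem RTP.smul {M : ℕ} {f : TT → ℝ} (c : ℝ) (hf : RTP M f) :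
    RTP M (fun x => c * f x) := by
  obtain ⟨f', hf', hff⟩ := hf
  refine ⟨(c : ℂ) • f', Submodule.smul_mem _ _ hf', ?_⟩
  intro x
  rw [ContinuousMap.smul_apply, hff, smul_eq_mul]
  push_cast
  rfl

theorem RTP.const (M : ℕ) (c : ℝ) : RTP M (fun _ => c) := by
  refine ⟨(c : ℂ) • fourier 0, Submodule.smul_mem _ _ (fourier_mem_TP (by simp)), ?_⟩
  intro x
  rw [ContinuousMap.smul_apply, fourier_zero, smul_eq_mul, mul_one]

theorem RTP.sub {M : ℕ} {f g : TT → ℝ} (hf : RTP M f) (hg : RTP M g) :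
    RTP M (fun x => f x - g x) := by
  have := hf.add (hg.smul (-1))
  simpa [sub_eq_add_neg] using this

theorem RTP.pow {M : ℕ} {f : TT → ℝ} (hf : RTP M f) (j : ℕ) : RTP (j * M) (fun x => f x ^ j) := by
  induction j with
  | zero => simpa using RTP.const 0 1
  | succ j ih =>
    have := ih.mul hf
    rw [show (j + 1) * M = j * M + M by ring]
    simpa [pow_succ] using this

theorem RTP.re_fourier {M : ℕ} (c : ℂ) (n : ℤ) (h : |n| ≤ M) :
    RTP M (fun x => (c * fourier n x).re) := by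
  refine ⟨(c / 2) • fourier n + ((starRingEnd ℂ) c / 2) • fourier (-n), ?_, ?_⟩
  · apply Submodule.add_mem
    · exact Submodule.smul_mem _ _ (fourier_mem_TP h)
    · exact Submodule.smul_mem _ _ (fourier_mem_TP (by rwa [abs_neg]))
  · intro x
    rw [ContinuousMap.add_apply, ContinuousMap.smul_apply, ContinuousMap.smul_apply, fourier_neg,
      smul_eq_mul, smul_eq_mul, Complex.re_eq_add_conj, map_mul]
    ring

theorem RTP.continuous {M : ℕ} {f : TT → ℝ} (hf : RTP M f) : Continuous f := by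
  obtain ⟨g, _, hgf⟩ := hf
  have : f = fun x => (g x).re := by
    ext x
    rw [hgf]
    simp
  rw [this]
  exact Complex.continuous_re.comp g.continuous

/-- the map x ↦ N x as a continuous map -/
noncomputable def dil (N : ℕ) : C(TT, TT) := ⟨fun x => N • x, continuous_nsmul N⟩

theorem fourier_dil (n : ℤ) (N : ℕ) : (fourier n : C(TT, ℂ)).comp (dil N) = fourier (n * N) := by
  ext x
  rw [ContinuousMap.comp_apply]
  change fourier n (N • x) = fourier (n * N) x
  rw [fourier_apply, fourier_apply, mul_smul, natCast_zsmul]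

theorem RTP.comp_dil {M : ℕ} {f : TT → ℝ} (hf : RTP M f) (N : ℕ) :
    RTP (M * N) (fun x => f (N • x)) := by
  obtain ⟨g, hg, hgf⟩ := hf
  refine ⟨g.comp (dil N), ?_, ?_⟩
  · clear hgf
    unfold TP at hg
    induction hg using Submodule.span_induction with
    | mem x hx =>
      obtain ⟨n, hn, rfl⟩ := hx
      rw [fourier_dil]
      apply fourier_mem_TP
      simp only [Set.mem_ofPred_eq] at hn
      rw [abs_mul]
      push_cast
      rw [Nat.abs_cast]
      exact mul_le_mul_of_nonneg_right hn (by positivity)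
    | zero =>
      have : (0 : C(TT, ℂ)).comp (dil N) = 0 := by ext; rfl
      rw [this]
      exact Submodule.zero_mem _
    | add x y _ _ hx hy =>
      have : (x + y).comp (dil N) = x.comp (dil N) + y.comp (dil N) := by ext; rfl
      rw [this]
      exact Submodule.add_mem _ hx hy
    | smul a x _ hx =>
      have : (a • x).comp (dil N) = a • x.comp (dil N) := by ext; rfl
      rw [this]
      exact Submodule.smul_mem _ _ hx
  · intro x
    exact hgf (N • x)

theorem integral_fourier (n : ℤ) : ∫ x, (fourier n x : ℂ) ∂mm = if n = 0 then 1 else 0 := by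
  have h := congrFun (fourierCoeff_fourier (T := 2 * Real.pi) n) 0
  rw [fourierCoeff] at h
  simp only [neg_zero, fourier_zero, one_smul] at h
  rw [h, Pi.single_apply]
  simp [eq_comm]

theorem integrable_cont (f : C(TT, ℂ)) : Integrable (fun x => f x) mm :=
  f.continuous.integrable_of_hasCompactSupport (HasCompactSupport.of_compactSpace _)

theorem integrable_of_cont {f : TT → ℝ} (hf : Continuous f) (μ : Measure TT) [IsFiniteMeasure μ] :
    Integrable f μ :=
  hf.integrable_of_hasCompactSupport (HasCompactSupport.of_compactSpace _)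

theorem continuous_integral_C : Continuous (fun q : C(TT, ℂ) => ∫ x, q x ∂mm) := by
  apply LipschitzWith.continuous (K := 1)
  apply LipschitzWith.of_dist_le_mul
  intro f g
  rw [NNReal.coe_one, one_mul, dist_eq_norm, ← integral_sub (integrable_cont f) (integrable_cont g)]
  refine (norm_integral_le_of_norm_le_const (C := dist f g) ?_).trans ?_
  · refine Eventually.of_forall fun x => ?_
    rw [← dist_eq_norm]
    exact ContinuousMap.dist_apply_le_dist x
  · simp

/-- key lemma: complex form for p -/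
theorem indep_complex {M N : ℕ} (hMN : M < N) {F : C(TT, ℂ)} (hF : F ∈ TP M) (p : C(TT, ℂ)) :
    ∫ x, F x * p (N • x) ∂mm = (∫ x, F x ∂mm) * ∫ x, p x ∂mm := by
  -- continuity of both sides in p, so it is enough to treat the span of the characters
  have key : ∀ p ∈ Submodule.span ℂ (Set.range (fourier : ℤ → C(TT, ℂ))),
      ∫ x, F x * p (N • x) ∂mm = (∫ x, F x ∂mm) * ∫ x, p x ∂mm := by
    intro p hp
    induction hp using Submodule.span_induction with
    | mem x hx =>
      obtain ⟨m, rfl⟩ := hx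
      unfold TP at hF
      induction hF using Submodule.span_induction with
      | mem y hy =>
        obtain ⟨n, hn, rfl⟩ := hy
        simp only [Set.mem_ofPred_eq] at hn
        have h1 : ∀ x : TT, (fourier n x : ℂ) * fourier m (N • x) = fourier (n + m * N) x := by
          intro x
          rw [fourier_add, fourier_apply (n := m), fourier_apply (n := m * N), mul_smul,
            natCast_zsmul]
        simp_rw [h1, integral_fourier]
        by_cases hm : m = 0
        · subst hm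
          simp
        · have h2 : n + m * N ≠ 0 := by
            intro h
            have h3 : |n| = |m| * N := by
              have : n = -(m * N) := by linarith
              rw [this, abs_neg, abs_mul, Nat.abs_cast]
            have h4 : 1 ≤ |m| := Int.one_le_abs hm
            have h5 : (M : ℤ) < N := by exact_mod_cast hMN
            nlinarith
          rw [if_neg h2, if_neg hm, mul_zero]
      | zero => simp
      | add y z _ _ hy hz =>
        have h1 : ∀ x : TT, (y + z) x * (fourier m (N • x) : ℂ) =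
          y x * fourier m (N • x) + z x * fourier m (N • x) := by
          intro x
          rw [ContinuousMap.add_apply]; ring
        simp_rw [h1]
        rw [integral_add, hy, hz]
        · simp_rw [ContinuousMap.add_apply]
          rw [integral_add (integrable_cont y) (integrable_cont z)]
          ring
        · exact integrable_cont (y * (fourier m).comp (dil N))
        · exact integrable_cont (z * (fourier m).comp (dil N))
      | smul a y _ hy =>
        have h1 : ∀ x : TT, (a • y) x * (fourier m (N • x) : ℂ) =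
          a * (y x * fourier m (N • x)) := by
          intro x
          rw [ContinuousMap.smul_apply, smul_eq_mul]; ring
        simp_rw [h1]
        rw [integral_const_mul, hy]
        simp_rw [ContinuousMap.smul_apply, smul_eq_mul]
        rw [integral_const_mul]
        ring
    | zero => simp
    | add p q _ _ hp hq =>
      have h1 : ∀ x : TT, F x * (p + q) (N • x) = F x * p (N • x) + F x * q (N • x) := by
        intro x
        rw [ContinuousMap.add_apply]; ring
      simp_rw [h1]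
      rw [integral_add, hp, hq]
      · simp_rw [ContinuousMap.add_apply]
        rw [integral_add (integrable_cont p) (integrable_cont q)]
        ring
      · exact integrable_cont (F * p.comp (dil N))
      · exact integrable_cont (F * q.comp (dil N))
    | smul a p _ hp =>
      have h1 : ∀ x : TT, F x * (a • p) (N • x) = a * (F x * p (N • x)) := by
        intro x
        rw [ContinuousMap.smul_apply, smul_eq_mul]; ring
      simp_rw [h1]
      rw [integral_const_mul, hp]
      simp_rw [ContinuousMap.smul_apply, smul_eq_mul]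
      rw [integral_const_mul]
      ring
  have hmem : p ∈ (Submodule.span ℂ (Set.range (fourier : ℤ → C(TT, ℂ)))).topologicalClosure := by
    rw [span_fourier_closure_eq_top]
    trivial
  have hcl : IsClosed {p : C(TT, ℂ) | ∫ x, F x * p (N • x) ∂mm = (∫ x, F x ∂mm) * ∫ x, p x ∂mm} := by
    apply isClosed_eq
    · have : Continuous (fun p : C(TT, ℂ) => ∫ x, (F * p.comp (dil N)) x ∂mm) :=
        continuous_integral_C.comp (continuous_const.mul (ContinuousMap.continuous_precomp (dil N)))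
      exact this
    · exact continuous_const.mul continuous_integral_C
  exact closure_minimal (fun p hp => key p hp) hcl hmem

/-- key lemma, real form -/
theorem indep {M N : ℕ} (hMN : M < N) {F : TT → ℝ} (hF : RTP M F) {p : TT → ℝ}
    (hp : Continuous p) :
    ∫ x, F x * p (N • x) ∂mm = (∫ x, F x ∂mm) * ∫ x, p x ∂mm := by
  obtain ⟨G, hG, hGF⟩ := hF
  have h := indep_complex hMN hG ⟨fun x => (p x : ℂ), Complex.continuous_ofReal.comp hp⟩
  simp only [ContinuousMap.coe_mk, hGF] at h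
  have h1 : ∀ x : TT, (F x : ℂ) * (p (N • x) : ℂ) = ((F x * p (N • x) : ℝ) : ℂ) := by
    intro x; push_cast; rfl
  simp_rw [h1] at h
  rw [integral_complex_ofReal, integral_complex_ofReal, integral_complex_ofReal] at h
  exact_mod_cast h

/-- products of dilated trigonometric polynomials with fast growing dilations -/
theorem prod_indep (Nn D : ℕ → ℕ) (h0 : 1 ≤ Nn 0) (hN : ∀ k, Nn (k + 1) = (D k + 1) * Nn k)
    (p : ℕ → TT → ℝ) (hp : ∀ k, RTP (D k) (p k)) (K : ℕ) :
    RTP (Nn K - 1) (fun x => ∏ k ∈ range K, p k (Nn k • x)) ∧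
    ∫ x, ∏ k ∈ range K, p k (Nn k • x) ∂mm = ∏ k ∈ range K, ∫ x, p k x ∂mm := by
  have hpos : ∀ k, 1 ≤ Nn k := by
    intro k
    induction k with
    | zero => exact h0
    | succ k ih =>
      rw [hN]
      nlinarith
  induction K with
  | zero =>
    constructor
    · simpa using RTP.const _ 1
    · simp
  | succ K ih =>
    obtain ⟨ih1, ih2⟩ := ih
    constructor
    · have h1 := ih1.mul ((hp K).comp_dil (Nn K))
      have h2 : Nn K - 1 + D K * Nn K = Nn (K + 1) - 1 := by
        rw [hN]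
        have := hpos K
        have h3 : (D K + 1) * Nn K = D K * Nn K + Nn K := by ring
        omega
      rw [h2] at h1
      simpa [prod_range_succ] using h1
    · simp_rw [prod_range_succ]
      have h1 := indep (N := Nn K) (by have := hpos K; omega) ih1 (hp K).continuous
      rw [h1, ih2]

/-- the partial products -/
noncomputable def PP (lam : ℕ → ℕ) (c : ℕ → ℂ) (N : ℕ) (x : TT) : ℝ :=
  ∏ n ∈ range N, (1 + (c n * fourier (lam n : ℤ) x).re)

theorem fourier_norm_le (n : ℤ) (x : TT) : ‖(fourier n x : ℂ)‖ ≤ 1 := by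
  rw [fourier_apply]
  exact (Circle.norm_coe _).le

theorem factor_nonneg {c : ℂ} (hc : ‖c‖ ≤ 1) (n : ℤ) (x : TT) :
    0 ≤ 1 + (c * fourier n x).re := by
  have h1 : |(c * fourier n x).re| ≤ 1 := by
    refine (Complex.abs_re_le_norm _).trans ?_
    rw [norm_mul]
    exact mul_le_one₀ hc (norm_nonneg _) (fourier_norm_le n x)
  linarith [neg_abs_le (c * fourier n x).re]

theorem PP_nonneg {lam : ℕ → ℕ} {c : ℕ → ℂ} (hc : ∀ n, ‖c n‖ ≤ 1) (N : ℕ) (x : TT) :
    0 ≤ PP lam c N x := prod_nonneg fun n _ => factor_nonneg (hc n) _ _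

theorem PP_RTP (lam : ℕ → ℕ) (c : ℕ → ℂ) (N : ℕ) : RTP (∑ n ∈ range N, lam n) (PP lam c N) := by
  unfold PP
  induction N with
  | zero => simpa using RTP.const 0 1
  | succ N ih =>
    have h1 : RTP (lam N) (fun x => 1 + (c N * fourier (lam N : ℤ) x).re) :=
      (RTP.const _ 1).add (RTP.re_fourier _ _ (by simp))
    have := ih.mul h1
    simpa [prod_range_succ, sum_range_succ] using this

theorem two_sum_le {lam : ℕ → ℕ} (h : ∀ n, 3 * lam n ≤ lam (n + 1)) (N : ℕ) :
    2 * ∑ n ∈ range N, lam n ≤ lam N := by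
  induction N with
  | zero => simp
  | succ N ih =>
    rw [sum_range_succ]
    have := h N
    omega

theorem lam_ge {lam : ℕ → ℕ} (h0 : 1 ≤ lam 0) (h : ∀ n, 3 * lam n ≤ lam (n + 1)) (N : ℕ) :
    N + 1 ≤ lam N := by
  induction N with
  | zero => simpa using h0
  | succ N ih =>
    have := h N
    omega

theorem fourier_nat (n : ℕ) (x : TT) : (fourier (n : ℤ) x : ℂ) = fourier 1 (n • x) := by
  rw [fourier_apply, fourier_apply, one_smul, natCast_zsmul]

theorem integral_factor (c : ℂ) : ∫ x, (1 + (c * fourier 1 x).re) ∂mm = 1 := by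
  have h1 : ∫ x, (c * fourier 1 x : ℂ) ∂mm = 0 := by
    rw [integral_const_mul, integral_fourier]
    simp
  have h2 : ∫ x, (c * fourier 1 x : ℂ).re ∂mm = 0 := by
    have h3 := integral_re (μ := (mm)) (f := fun x : TT => (c * fourier 1 x : ℂ))
      (integrable_cont (c • fourier 1))
    have h4 : ∫ x, (c * fourier 1 x : ℂ).re ∂mm = RCLike.re (∫ x, (c * fourier 1 x : ℂ) ∂mm) := h3
    rw [h4, h1]
    simp
  rw [integral_add, h2]
  · simp
  · exact integrable_const _
  · exact integrable_of_cont (Complex.continuous_re.comp (c • (fourier 1 : C(TT, ℂ))).continuous) _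

theorem PP_step {lam : ℕ → ℕ} (h : ∀ n, 3 * lam n ≤ lam (n + 1)) (c : ℕ → ℂ) {f : TT → ℝ} {d : ℕ}
    (hf : RTP d f) {N : ℕ} (hd : 2 * d < lam N) :
    ∫ x, f x * PP lam c (N + 1) x ∂mm = ∫ x, f x * PP lam c N x ∂mm := by
  have h1 : ∀ x, f x * PP lam c (N + 1) x = (f x * PP lam c N x) *
      (1 + (c N * fourier 1 (lam N • x)).re) := by
    intro x
    simp only [PP, prod_range_succ]
    rw [fourier_nat (lam N) x, mul_assoc]
  have h2 := indep (M := d + ∑ n ∈ range N, lam n) (N := lam N)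
    (by have := two_sum_le h N; omega) (hf.mul (PP_RTP lam c N))
    (p := fun y : TT => 1 + (c N * fourier 1 y).re)
    ((RTP.const 1 1).add (RTP.re_fourier _ _ (by simp))).continuous
  simp_rw [h1]
  rw [h2, integral_factor, mul_one]

theorem PP_const {lam : ℕ → ℕ} (h0 : 1 ≤ lam 0) (h : ∀ n, 3 * lam n ≤ lam (n + 1)) (c : ℕ → ℂ)
    {f : TT → ℝ} {d : ℕ} (hf : RTP d f) (j : ℕ) :
    ∫ x, f x * PP lam c (2 * d + j) x ∂mm = ∫ x, f x * PP lam c (2 * d) x ∂mm := by
  induction j with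
  | zero => rfl
  | succ j ih =>
    rw [← add_assoc, PP_step h c hf, ih]
    have := lam_ge h0 h (2 * d + j)
    omega

theorem PP_integral {lam : ℕ → ℕ} (h0 : 1 ≤ lam 0) (h : ∀ n, 3 * lam n ≤ lam (n + 1)) (c : ℕ → ℂ)
    (N : ℕ) : ∫ x, PP lam c N x ∂mm = 1 := by
  have := PP_const h0 h c (RTP.const 0 1) N
  simp only [one_mul, mul_zero, zero_add] at this
  rw [this]
  simp [PP]

theorem PP_continuous (lam : ℕ → ℕ) (c : ℕ → ℂ) (N : ℕ) : Continuous (PP lam c N) :=
  (PP_RTP lam c N).continuous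

/-- density of the real trigonometric polynomials -/
theorem dense_RTP (f : C(TT, ℝ)) {ε : ℝ} (hε : 0 < ε) :
    ∃ (d : ℕ) (g : TT → ℝ), RTP d g ∧ ∀ x, |f x - g x| ≤ ε := by
  let F : C(TT, ℂ) := ⟨fun x => (f x : ℂ), Complex.continuous_ofReal.comp f.continuous⟩
  have hmem : F ∈ (Submodule.span ℂ (Set.range (fourier : ℤ → C(TT, ℂ)))).topologicalClosure := by
    rw [span_fourier_closure_eq_top]
    trivial
  have h1 : F ∈ closure ((Submodule.span ℂ (Set.range (fourier : ℤ → C(TT, ℂ)))) : Set C(TT, ℂ)) :=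
    hmem
  rw [Metric.mem_closure_iff] at h1
  obtain ⟨G, hG, hFG⟩ := h1 ε hε
  -- G is in some TP d together with its real part
  have key : ∀ G ∈ Submodule.span ℂ (Set.range (fourier : ℤ → C(TT, ℂ))),
      ∃ d : ℕ, RTP d (fun x => (G x).re) ∧ RTP d (fun x => (G x).im) := by
    intro G hG
    induction hG using Submodule.span_induction with
    | mem x hx =>
      obtain ⟨n, rfl⟩ := hx
      refine ⟨n.natAbs, ?_, ?_⟩
      · have := RTP.re_fourier (M := n.natAbs) 1 n (by simp)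
        simpa using this
      · have := RTP.re_fourier (M := n.natAbs) (-Complex.I) n (by simp)
        simpa using this
    | zero =>
      exact ⟨0, by simpa using RTP.const 0 0, by simpa using RTP.const 0 0⟩
    | add x y _ _ hx hy =>
      obtain ⟨d, h1, h2⟩ := hx
      obtain ⟨e, h3, h4⟩ := hy
      refine ⟨max d e, ?_, ?_⟩
      · simpa using (h1.mono (le_max_left d e)).add (h3.mono (le_max_right d e))
      · simpa using (h2.mono (le_max_left d e)).add (h4.mono (le_max_right d e))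
    | smul a x _ hx =>
      obtain ⟨d, h1, h2⟩ := hx
      refine ⟨d, ?_, ?_⟩
      · have := (h1.smul a.re).sub (h2.smul a.im)
        simpa [Complex.mul_re] using this
      · have := (h2.smul a.re).add (h1.smul a.im)
        simpa [Complex.mul_im] using this
  obtain ⟨d, hd, _⟩ := key G hG
  refine ⟨d, _, hd, ?_⟩
  intro x
  have h2 : ‖F x - G x‖ ≤ ε := by
    rw [← dist_eq_norm]
    exact (ContinuousMap.dist_apply_le_dist x).trans hFG.le
  have h3 : |(F x - G x).re| ≤ ε := (Complex.abs_re_le_norm _).trans h2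
  simpa [F] using h3

theorem exists_riesz {lam : ℕ → ℕ} (h0 : 1 ≤ lam 0) (h : ∀ n, 3 * lam n ≤ lam (n + 1)) {c : ℕ → ℂ}
    (hc : ∀ n, ‖c n‖ ≤ 1) :
    ∃ μ : Measure TT, IsProbabilityMeasure μ ∧
      ∀ f : C(TT, ℝ), Tendsto (fun N => ∫ x, f x * PP lam c N x ∂mm) atTop (𝓝 (∫ x, f x ∂μ)) := by
  have hmeas : ∀ N, Measurable (fun x => (PP lam c N x).toNNReal) := fun N =>
    (PP_continuous lam c N).measurable.real_toNNReal
  have hint : ∀ N (g : TT → ℝ), ∫ x, g x ∂(mm.withDensity (fun x => ((PP lam c N x).toNNReal : ENNReal)))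
      = ∫ x, g x * PP lam c N x ∂mm := by
    intro N g
    rw [integral_withDensity_eq_integral_smul (hmeas N)]
    refine integral_congr_ae (Eventually.of_forall fun x => ?_)
    simp only [NNReal.smul_def, smul_eq_mul]
    rw [Real.coe_toNNReal _ (PP_nonneg hc N x), mul_comm]
  have hprob : ∀ N, IsProbabilityMeasure
      (mm.withDensity (fun x => ((PP lam c N x).toNNReal : ENNReal))) := by
    intro N
    constructor
    rw [withDensity_apply _ MeasurableSet.univ, Measure.restrict_univ]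
    have h1 : ∫⁻ x, ((PP lam c N x).toNNReal : ENNReal) ∂mm = ∫⁻ x, ENNReal.ofReal (PP lam c N x) ∂mm := rfl
    rw [h1, ← ofReal_integral_eq_lintegral_ofReal (integrable_of_cont (PP_continuous lam c N) _)
      (Eventually.of_forall fun x => PP_nonneg hc N x), PP_integral h0 h c N]
    simp
  let ν : ℕ → ProbabilityMeasure TT := fun N => ⟨_, hprob N⟩
  obtain ⟨μ, hμ⟩ := exists_clusterPt_of_compactSpace (Filter.map ν atTop)
  have hμ' : MapClusterPt μ atTop ν := hμ
  -- for trigonometric polynomials the integrals are eventually constant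
  have key : ∀ (d : ℕ) (g : TT → ℝ), RTP d g →
      ∫ x, g x ∂(μ : Measure TT) = ∫ x, g x * PP lam c (2 * d) x ∂mm := by
    intro d g hg
    have hcont : Continuous (fun μ : ProbabilityMeasure TT => ∫ x, g x ∂(μ : Measure TT)) := by
      have := ProbabilityMeasure.continuous_integral_continuousMap (X := TT)
        (⟨g, hg.continuous⟩ : C(TT, ℝ))
      exact this
    have h1 : MapClusterPt (∫ x, g x ∂(μ : Measure TT)) atTop
        (fun N => ∫ x, g x ∂(ν N : Measure TT)) :=
      hμ'.continuousAt_comp hcont.continuousAt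
    have h2 : Tendsto (fun N => ∫ x, g x ∂(ν N : Measure TT)) atTop
        (𝓝 (∫ x, g x * PP lam c (2 * d) x ∂mm)) := by
      refine tendsto_const_nhds.congr' ?_
      filter_upwards [eventually_ge_atTop (2 * d)] with N hN
      obtain ⟨j, rfl⟩ := Nat.exists_eq_add_of_le hN
      rw [← PP_const h0 h c hg j]
      exact (hint _ _).symm
    have h3 : ClusterPt (∫ x, g x ∂(μ : Measure TT)) (𝓝 (∫ x, g x * PP lam c (2 * d) x ∂mm)) :=
      ClusterPt.mono h1 h2
    by_contra hne
    have := disjoint_nhds_nhds.2 hne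
    exact h3.ne (disjoint_iff.1 this)
  refine ⟨μ, inferInstance, ?_⟩
  intro f
  rw [Metric.tendsto_atTop]
  intro ε hε
  obtain ⟨d, g, hg, hfg⟩ := dense_RTP f (ε := ε / 3) (by positivity)
  refine ⟨2 * d, fun N hN => ?_⟩
  obtain ⟨j, rfl⟩ := Nat.exists_eq_add_of_le hN
  have h1 : |∫ x, f x * PP lam c (2 * d + j) x ∂mm - ∫ x, g x * PP lam c (2 * d + j) x ∂mm| ≤ ε / 3 := by
    rw [← integral_sub]
    · have h2 : ∀ x, |f x * PP lam c (2 * d + j) x - g x * PP lam c (2 * d + j) x| ≤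
        ε / 3 * PP lam c (2 * d + j) x := by
        intro x
        rw [← sub_mul, abs_mul, abs_of_nonneg (PP_nonneg hc _ x)]
        exact mul_le_mul_of_nonneg_right (hfg x) (PP_nonneg hc _ x)
      calc |∫ x, (f x * PP lam c (2 * d + j) x - g x * PP lam c (2 * d + j) x) ∂mm|
          ≤ ∫ x, |f x * PP lam c (2 * d + j) x - g x * PP lam c (2 * d + j) x| ∂mm :=
            abs_integral_le_integral_abs
        _ ≤ ∫ x, ε / 3 * PP lam c (2 * d + j) x ∂mm := by
            refine integral_mono ?_ ?_ h2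
            · refine (integrable_of_cont ?_ _)
              exact (((f.continuous.mul (PP_continuous _ _ _)).sub
                (hg.continuous.mul (PP_continuous _ _ _)))).abs
            · exact integrable_of_cont (continuous_const.mul (PP_continuous _ _ _)) _
        _ = ε / 3 := by rw [integral_const_mul, PP_integral h0 h]; ring
    · exact integrable_of_cont (f.continuous.mul (PP_continuous _ _ _)) _
    · exact integrable_of_cont (hg.continuous.mul (PP_continuous _ _ _)) _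
  have h2 : |∫ x, f x ∂(μ : Measure TT) - ∫ x, g x ∂(μ : Measure TT)| ≤ ε / 3 := by
    rw [← integral_sub (integrable_of_cont f.continuous _) (integrable_of_cont hg.continuous _)]
    have := norm_integral_le_of_norm_le_const (μ := (μ : Measure TT)) (f := fun x => f x - g x)
      (C := ε / 3) (Eventually.of_forall fun x => by simpa using hfg x)
    simpa using this
  rw [PP_const h0 h c hg j, ← key d g hg] at h1
  rw [Real.dist_eq]
  have h3 := abs_sub_le (∫ x, f x * PP lam c (2 * d + j) x ∂mm) (∫ x, g x ∂(μ : Measure TT))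
    (∫ x, f x ∂(μ : Measure TT))
  rw [abs_sub_comm (∫ x, g x ∂(μ : Measure TT))] at h3
  linarith

/-- `cos x` -/
noncomputable def CC (x : TT) : ℝ := (fourier 1 x : ℂ).re
/-- `sin² (x / 2)` -/
noncomputable def SS (x : TT) : ℝ := (1 - CC x) / 2

theorem CC_abs_le (x : TT) : |CC x| ≤ 1 :=
  (Complex.abs_re_le_norm _).trans (fourier_norm_le 1 x)

theorem CC_eq (x : TT) : CC x = 1 - 2 * SS x := by unfold SS; ring

theorem SS_nonneg (x : TT) : 0 ≤ SS x := by
  have := (abs_le.1 (CC_abs_le x)).2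
  unfold SS; linarith

theorem SS_le_one (x : TT) : SS x ≤ 1 := by
  have := (abs_le.1 (CC_abs_le x)).1
  unfold SS; linarith

theorem fourier_three_re (x : TT) : (fourier 3 x : ℂ).re = 4 * CC x ^ 3 - 3 * CC x := by
  have h1 : (fourier 3 x : ℂ) = (fourier 1 x) ^ 3 := by
    have h2 : (fourier (1 + 1 + 1) x : ℂ) = fourier 1 x * fourier 1 x * fourier 1 x := by
      rw [fourier_add, fourier_add]
    have h3 : (fourier 3 x : ℂ) = fourier (1 + 1 + 1) x := rfl
    rw [h3, h2]; ring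
  have h3 : ‖(fourier 1 x : ℂ)‖ = 1 := by
    rw [fourier_apply]; exact Circle.norm_coe _
  have h4 : (fourier 1 x : ℂ).re ^ 2 + (fourier 1 x : ℂ).im ^ 2 = 1 := by
    have h5 := Complex.sq_norm (fourier 1 x : ℂ)
    rw [h3, Complex.normSq_apply] at h5
    linarith
  rw [h1, CC]
  have h6 : ((fourier 1 x : ℂ) ^ 3).re = (fourier 1 x : ℂ).re ^ 3 -
      3 * (fourier 1 x : ℂ).re * (fourier 1 x : ℂ).im ^ 2 := by
    rw [pow_succ, pow_two, Complex.mul_re, Complex.mul_re, Complex.mul_im]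
    ring
  rw [h6]
  linear_combination (-3 * (fourier 1 x : ℂ).re) * h4

theorem RTP_CC : RTP 1 CC := by
  have h := RTP.re_fourier (M := 1) 1 1 (by simp)
  have h2 : (fun x : TT => (1 * (fourier 1 x : ℂ)).re) = CC := by
    ext x
    rw [one_mul, CC]
  rwa [h2] at h

theorem RTP_SS : RTP 1 SS := by
  have h := ((RTP.const 1 1).sub RTP_CC).smul (1 / 2)
  have h2 : SS = fun x => 1 / 2 * (1 - CC x) := by
    ext x; unfold SS; ring
  rw [h2]; exact h

theorem RTP_SSpow (m : ℕ) : RTP m (fun x => SS x ^ m) := by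
  simpa using RTP_SS.pow m

/-- Wallis numbers -/
noncomputable def ww (j : ℕ) : ℝ := ∏ i ∈ range j, (2 * (i : ℝ) + 1) / (2 * i + 2)

theorem CC_coe (x : ℝ) : CC ((x : ℝ) : TT) = Real.cos x := by
  unfold CC
  rw [fourier_coe_apply]
  have h : (2 * Real.pi * Complex.I * ((1 : ℤ) : ℂ) * x / ((2 * Real.pi : ℝ) : ℂ)) = x * Complex.I := by
    have hpi : (Real.pi : ℂ) ≠ 0 := by exact_mod_cast Real.pi_ne_zero
    push_cast
    field_simp
  rw [h, Complex.exp_ofReal_mul_I_re]

theorem SS_coe (x : ℝ) : SS ((x : ℝ) : TT) = Real.sin (x / 2) ^ 2 := by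
  unfold SS
  rw [CC_coe]
  have h := Real.cos_two_mul (x / 2)
  have h2 : 2 * (x / 2) = x := by ring
  rw [h2] at h
  have h3 := Real.sin_sq_add_cos_sq (x / 2)
  rw [h]; linarith

theorem integral_SS_pow (j : ℕ) : ∫ x, SS x ^ j ∂mm = ww j := by
  rw [AddCircle.integral_haarAddCircle, ← AddCircle.intervalIntegral_preimage (2 * Real.pi) 0]
  simp_rw [SS_coe]
  have h1 : ∀ x : ℝ, (Real.sin (x / 2) ^ 2) ^ j = (fun y => Real.sin y ^ (2 * j)) (x / 2) := by
    intro x
    simp only [pow_mul]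
  simp_rw [h1]
  rw [intervalIntegral.integral_comp_div (fun y => Real.sin y ^ (2 * j)) (two_ne_zero)]
  have h2 : (0 : ℝ) / 2 = 0 := by norm_num
  have h3 : (0 + 2 * Real.pi) / 2 = Real.pi := by ring
  rw [h2, h3, integral_sin_pow_even]
  have hpi : Real.pi ≠ 0 := Real.pi_ne_zero
  simp only [smul_eq_mul, ww]
  field_simp

theorem ww_succ (j : ℕ) : ww (j + 1) = ww j * ((2 * (j : ℝ) + 1) / (2 * j + 2)) := by
  unfold ww
  rw [prod_range_succ]

theorem ww_pos (j : ℕ) : 0 < ww j := by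
  unfold ww
  apply prod_pos
  intro i _
  positivity

theorem ww_sq_le (m : ℕ) : ww m ^ 2 * (2 * m + 1) ≤ 1 := by
  induction m with
  | zero => simp [ww]
  | succ m ih =>
    rw [ww_succ]
    push_cast
    have h1 : (ww m * ((2 * (m : ℝ) + 1) / (2 * m + 2))) ^ 2 * (2 * (m + 1) + 1) =
      (ww m ^ 2 * (2 * m + 1)) * (((2 * (m : ℝ) + 1) * (2 * m + 3)) / (2 * m + 2) ^ 2) := by
      field_simp
      ring
    rw [h1]
    apply mul_le_one₀ ih (by positivity)
    rw [div_le_one (by positivity)]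
    nlinarith

theorem ww_sq_ge (m : ℕ) : 1 / 4 ≤ ww (m + 1) ^ 2 * (m + 1 : ℝ) := by
  induction m with
  | zero => simp [ww]; norm_num
  | succ m ih =>
    rw [ww_succ]
    push_cast
    have h1 : (ww (m + 1) * ((2 * ((m : ℝ) + 1) + 1) / (2 * (m + 1) + 2))) ^ 2 * (m + 1 + 1) =
      (ww (m + 1) ^ 2 * (m + 1 : ℝ)) *
      ((2 * (m : ℝ) + 3) ^ 2 * (m + 2) / ((2 * m + 4) ^ 2 * (m + 1))) := by
      field_simp
      ring
    rw [h1]
    have h2 : 1 ≤ (2 * (m : ℝ) + 3) ^ 2 * (m + 2) / ((2 * m + 4) ^ 2 * (m + 1)) := by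
      rw [one_le_div (by positivity)]
      nlinarith
    nlinarith

/-- the block density with parameters -/
noncomputable def GG (γ τ : ℝ) (x : TT) : ℝ := (1 + γ * CC x) * (1 + τ * (4 * CC x ^ 3 - 3 * CC x))

theorem RTP_cos3 : RTP 3 (fun x => 4 * CC x ^ 3 - 3 * CC x) := by
  have h := RTP.re_fourier (M := 3) 1 3 (by simp)
  have h2 : (fun x : TT => (1 * (fourier 3 x : ℂ)).re) = fun x => 4 * CC x ^ 3 - 3 * CC x := by
    ext x
    rw [one_mul, fourier_three_re]
  rwa [h2] at h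

theorem RTP_GG (γ τ : ℝ) : RTP 4 (GG γ τ) := by
  have h1 : RTP 1 (fun x => 1 + γ * CC x) := (RTP.const 1 1).add (RTP_CC.smul γ)
  have h2 : RTP 3 (fun x => 1 + τ * (4 * CC x ^ 3 - 3 * CC x)) :=
    (RTP.const 3 1).add (RTP_cos3.smul τ)
  have h3 := h1.mul h2
  have h4 : GG γ τ = fun x => (1 + γ * CC x) * (1 + τ * (4 * CC x ^ 3 - 3 * CC x)) := by
    ext x; rw [GG]
  rw [h4]
  exact h3

theorem ww1 : ww 1 = 1 / 2 := by simp [ww]
theorem ww2 : ww 2 = 3 / 8 := by rw [ww_succ, ww1]; norm_num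
theorem ww3 : ww 3 = 5 / 16 := by rw [ww_succ, ww2]; norm_num
theorem ww4 : ww 4 = 35 / 128 := by rw [ww_succ, ww3]; norm_num

theorem SSc : Continuous SS := RTP_SS.continuous
theorem CCc : Continuous CC := RTP_CC.continuous

theorem integral_poly4 (c0 c1 c2 c3 c4 : ℝ) :
    ∫ x, (c0 + c1 * SS x + c2 * SS x ^ 2 + c3 * SS x ^ 3 + c4 * SS x ^ 4) ∂mm =
      c0 + c1 / 2 + c2 * (3 / 8) + c3 * (5 / 16) + c4 * (35 / 128) := by
  have hs := SSc
  rw [integral_add (integrable_of_cont (by fun_prop) _) (integrable_of_cont (by fun_prop) _),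
    integral_add (integrable_of_cont (by fun_prop) _) (integrable_of_cont (by fun_prop) _),
    integral_add (integrable_of_cont (by fun_prop) _) (integrable_of_cont (by fun_prop) _),
    integral_add (integrable_of_cont (by fun_prop) _) (integrable_of_cont (by fun_prop) _),
    integral_const_mul, integral_const_mul, integral_const_mul, integral_const_mul,
    integral_SS_pow, integral_SS_pow, integral_SS_pow, ww2, ww3, ww4]
  have h1 := integral_SS_pow 1
  simp only [pow_one] at h1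
  rw [h1, ww1]
  simp
  ring

theorem integral_GG (γ τ : ℝ) : ∫ x, GG γ τ x ∂mm = 1 := by
  have h : ∀ x, GG γ τ x = (1 + γ) * (1 + τ) + (-2 * γ * (1 + τ) - 18 * τ * (1 + γ)) * SS x +
      (48 * τ * (1 + γ) + 36 * γ * τ) * SS x ^ 2 +
      (-32 * τ * (1 + γ) - 96 * γ * τ) * SS x ^ 3 + (64 * γ * τ) * SS x ^ 4 := by
    intro x
    rw [GG, CC_eq]; ring
  simp_rw [h]
  rw [integral_poly4]
  ring

theorem CC_bounds (x : TT) : -1 ≤ CC x ∧ CC x ≤ 1 := abs_le.1 (CC_abs_le x)

theorem GG_nonneg {γ τ : ℝ} (hγ : |γ| ≤ 1) (hτ : |τ| ≤ 1) (x : TT) : 0 ≤ GG γ τ x := by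
  have h1 := CC_abs_le x
  have h2 : |4 * CC x ^ 3 - 3 * CC x| ≤ 1 := by
    rw [← fourier_three_re]
    exact (Complex.abs_re_le_norm _).trans (fourier_norm_le 3 x)
  have h3 : |γ * CC x| ≤ 1 := by rw [abs_mul]; exact mul_le_one₀ hγ (abs_nonneg _) h1
  have h4 : |τ * (4 * CC x ^ 3 - 3 * CC x)| ≤ 1 := by
    rw [abs_mul]; exact mul_le_one₀ hτ (abs_nonneg _) h2
  unfold GG
  have h5 := neg_abs_le (γ * CC x)
  have h6 := neg_abs_le (τ * (4 * CC x ^ 3 - 3 * CC x))
  exact mul_nonneg (by linarith) (by linarith)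

theorem GG_pos {γ τ : ℝ} (hγ : |γ| < 1) (hτ : |τ| < 1) (x : TT) : 0 < GG γ τ x := by
  have h1 := CC_abs_le x
  have h2 : |4 * CC x ^ 3 - 3 * CC x| ≤ 1 := by
    rw [← fourier_three_re]
    exact (Complex.abs_re_le_norm _).trans (fourier_norm_le 3 x)
  have h3 : |γ * CC x| < 1 := by
    rw [abs_mul]
    calc |γ| * |CC x| ≤ |γ| * 1 := mul_le_mul_of_nonneg_left h1 (abs_nonneg _)
      _ < 1 := by linarith
  have h4 : |τ * (4 * CC x ^ 3 - 3 * CC x)| < 1 := by
    rw [abs_mul]
    calc |τ| * |4 * CC x ^ 3 - 3 * CC x| ≤ |τ| * 1 := mul_le_mul_of_nonneg_left h2 (abs_nonneg _)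
      _ < 1 := by linarith
  unfold GG
  have h5 := neg_abs_le (γ * CC x)
  have h6 := neg_abs_le (τ * (4 * CC x ^ 3 - 3 * CC x))
  exact mul_pos (by linarith) (by linarith)

/-- the majorant of `(G^γ)^2 / G^γ'` -/
noncomputable def QQ (γ γ' ρ : ℝ) (x : TT) : ℝ :=
  GG γ' ρ x + (2 * (γ - γ')) * (CC x * (1 + ρ * (4 * CC x ^ 3 - 3 * CC x))) + 11 * (γ - γ') ^ 2

theorem RTP_QQ (γ γ' ρ : ℝ) : RTP 4 (QQ γ γ' ρ) := by
  have h2 : RTP 3 (fun x => 1 + ρ * (4 * CC x ^ 3 - 3 * CC x)) :=
    (RTP.const 3 1).add (RTP_cos3.smul ρ)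
  have h3 := ((RTP_GG γ' ρ).add ((RTP_CC.mul h2).smul (2 * (γ - γ')))).add
    (RTP.const 4 (11 * (γ - γ') ^ 2))
  have h4 : QQ γ γ' ρ = fun x => GG γ' ρ x + (2 * (γ - γ')) *
      (CC x * (1 + ρ * (4 * CC x ^ 3 - 3 * CC x))) + 11 * (γ - γ') ^ 2 := by
    ext x; rw [QQ]
  rw [h4]; exact h3

theorem integral_QQ (γ γ' ρ : ℝ) : ∫ x, QQ γ γ' ρ x ∂mm = 1 + 11 * (γ - γ') ^ 2 := by
  have h1 : ∀ x, QQ γ γ' ρ x = GG γ' ρ x +
      ((2 * (γ - γ') * (1 + ρ) + 11 * (γ - γ') ^ 2) + (2 * (γ - γ')) * (-20 * ρ - 2) * SS x +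
      (2 * (γ - γ')) * (84 * ρ) * SS x ^ 2 + (2 * (γ - γ')) * (-128 * ρ) * SS x ^ 3 +
      (2 * (γ - γ')) * (64 * ρ) * SS x ^ 4) := by
    intro x
    rw [QQ, CC_eq]; ring
  simp_rw [h1]
  have hs := SSc
  rw [integral_add (integrable_of_cont (RTP_GG _ _).continuous _)
    (integrable_of_cont (by fun_prop) _), integral_GG, integral_poly4]
  ring

theorem GG_sq_le {γ γ' ρ : ℝ} (h0 : 0 < γ') (h1 : γ' < 1) (hρ0 : 0 ≤ ρ) (hρ : ρ ≤ γ')
    (hρ2 : 1 - ρ ≤ 2 * (1 - γ')) (x : TT) :
    GG γ ρ x ^ 2 ≤ QQ γ γ' ρ x * GG γ' ρ x := by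
  obtain ⟨hc1, hc2⟩ := CC_bounds x
  set c := CC x with hc
  have hy : 0 < 1 + γ' * c := by nlinarith
  have hz : 0 ≤ 1 + ρ * (4 * c ^ 3 - 3 * c) := by
    have : 1 + ρ * (4 * c ^ 3 - 3 * c) = (1 - ρ) + ρ * ((1 + c) * (2 * c - 1) ^ 2) := by ring
    rw [this]
    have h3 : 0 ≤ (1 + c) * (2 * c - 1) ^ 2 := mul_nonneg (by linarith) (sq_nonneg _)
    have := mul_nonneg hρ0 h3
    linarith
  have hzy : 1 + ρ * (4 * c ^ 3 - 3 * c) ≤ 11 * (1 + γ' * c) := by
    have h2 : 1 + ρ * (4 * c ^ 3 - 3 * c) = (1 - ρ) + ρ * ((1 + c) * (2 * c - 1) ^ 2) := by ring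
    rw [h2]
    have h3 : (2 * c - 1) ^ 2 ≤ 9 := by nlinarith
    have h4 : (1 + c) * (2 * c - 1) ^ 2 ≤ 9 * (1 + c) := by nlinarith
    have h5 : ρ * ((1 + c) * (2 * c - 1) ^ 2) ≤ γ' * (9 * (1 + c)) :=
      mul_le_mul hρ h4 (mul_nonneg (by linarith) (sq_nonneg _)) h0.le
    have h6 : 1 - γ' ≤ 1 + γ' * c := by nlinarith
    nlinarith
  have hc2' : c ^ 2 ≤ 1 := by nlinarith
  have hkey : c ^ 2 * (1 + ρ * (4 * c ^ 3 - 3 * c)) ≤ 11 * (1 + γ' * c) := by
    calc c ^ 2 * (1 + ρ * (4 * c ^ 3 - 3 * c)) ≤ 1 * (1 + ρ * (4 * c ^ 3 - 3 * c)) :=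
          mul_le_mul_of_nonneg_right hc2' hz
      _ ≤ _ := by linarith
  rw [QQ, GG, GG, ← hc]
  set z := 1 + ρ * (4 * c ^ 3 - 3 * c) with hzdef
  have h7 : (((1 + γ' * c) * z + 2 * (γ - γ') * (c * z) + 11 * (γ - γ') ^ 2) * ((1 + γ' * c) * z)) -
      ((1 + γ * c) * z) ^ 2 = (γ - γ') ^ 2 * z * (11 * (1 + γ' * c) - c ^ 2 * z) := by
    ring
  have h8 : 0 ≤ (γ - γ') ^ 2 * z * (11 * (1 + γ' * c) - c ^ 2 * z) :=
    mul_nonneg (mul_nonneg (sq_nonneg _) hz) (by linarith)
  linarith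

theorem one_sub_cos3 (x : TT) (ρ : ℝ) :
    1 + -ρ * (4 * CC x ^ 3 - 3 * CC x) = (1 - ρ) + 2 * ρ * SS x * (3 - 4 * SS x) ^ 2 := by
  rw [CC_eq]; ring

theorem ww_ge {n : ℕ} (hn : 1 ≤ n) : 1 / (2 * √n) ≤ ww n := by
  obtain ⟨m, rfl⟩ := Nat.exists_eq_add_of_le' hn
  have h1 := ww_sq_ge m
  have h2 := ww_pos (m + 1)
  have hpos : 0 < √((m + 1 : ℕ) : ℝ) := Real.sqrt_pos.2 (by positivity)
  have hsq : √((m + 1 : ℕ) : ℝ) ^ 2 = m + 1 := by
    rw [Real.sq_sqrt (by positivity)]; push_cast; ring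
  rw [div_le_iff₀ (by positivity)]
  have h3 : 1 ≤ (ww (m + 1) * (2 * √((m + 1 : ℕ) : ℝ))) ^ 2 := by
    rw [mul_pow, mul_pow, hsq]
    linarith
  by_contra hlt
  push Not at hlt
  have h4 : 0 < ww (m + 1) * (2 * √((m + 1 : ℕ) : ℝ)) := by positivity
  nlinarith

theorem ww_two_le {n : ℕ} (hn : 1 ≤ n) : ww (2 * n) ≤ 1 / (2 * √n) := by
  have h1 := ww_sq_le (2 * n)
  have h2 := ww_pos (2 * n)
  have hn' : (1 : ℝ) ≤ n := by exact_mod_cast hn
  have hpos : 0 < √(n : ℝ) := Real.sqrt_pos.2 (by linarith)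
  have hsq : √(n : ℝ) ^ 2 = n := Real.sq_sqrt (by linarith)
  rw [le_div_iff₀ (by positivity)]
  push_cast at h1
  have h3 : (ww (2 * n) * (2 * √(n : ℝ))) ^ 2 ≤ 1 := by
    rw [mul_pow, mul_pow, hsq]
    nlinarith [sq_nonneg (ww (2 * n))]
  have h4 : 0 < ww (2 * n) * (2 * √(n : ℝ)) := by positivity
  by_contra hlt
  push Not at hlt
  nlinarith

/-- the gap between the two means -/
theorem block_gap {n : ℕ} (hn : 8 ≤ n) :
    1 / 8 * (1 / (n * √n)) ≤
      (∫ x, SS x ^ n * GG (1 - 1 / n) (-(1 - 1 / n)) x ∂mm) -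
      ∫ x, SS x ^ n * GG (1 - 1 / (2 * n)) (-(1 - 1 / n)) x ∂mm := by
  have hn' : (8 : ℝ) ≤ n := by exact_mod_cast hn
  have hpos : 0 < √(n : ℝ) := Real.sqrt_pos.2 (by linarith)
  have hs := SSc
  have hint : ∀ γ, Integrable (fun x => SS x ^ n * GG γ (-(1 - 1 / n)) x) mm := fun γ =>
    integrable_of_cont ((hs.pow n).mul (RTP_GG _ _).continuous) _
  rw [← integral_sub (hint _) (hint _)]
  set ρ : ℝ := 1 - 1 / n with hρ
  set δ : ℝ := 1 / (2 * n) with hδ
  have hδ0 : 0 < δ := by positivity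
  have hinv : (1 : ℝ) / n ≤ 1 / 8 := one_div_le_one_div_of_le (by norm_num) hn'
  have hρ0 : 7 / 8 ≤ ρ := by rw [hρ]; linarith
  have hρ1 : ρ ≤ 1 := by
    rw [hρ]
    have : 0 < (1 : ℝ) / n := by positivity
    linarith
  have hpt : ∀ x, δ * ((1 - ρ) * (2 * SS x ^ (n + 1) - SS x ^ n) +
      2 * ρ * (10 * SS x ^ (n + 2) - 9 * SS x ^ (n + 1))) ≤
      SS x ^ n * GG ρ (-ρ) x - SS x ^ n * GG (1 - δ) (-ρ) x := by
    intro x
    have h0 := SS_nonneg x
    have h1 := SS_le_one x
    have e1 : SS x ^ n * GG ρ (-ρ) x - SS x ^ n * GG (1 - δ) (-ρ) x =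
        δ * (SS x ^ n * ((2 * SS x - 1) * ((1 - ρ) + 2 * ρ * SS x * (3 - 4 * SS x) ^ 2))) := by
      rw [GG, GG, one_sub_cos3, CC_eq]
      have : ρ = 1 - 2 * δ := by
        rw [hρ, hδ]; field_simp
      have e2 : (1 + ρ * (1 - 2 * SS x)) - (1 + (1 - δ) * (1 - 2 * SS x)) = δ * (2 * SS x - 1) := by
        rw [this]; ring
      linear_combination (SS x ^ n * ((1 - ρ) + 2 * ρ * SS x * (3 - 4 * SS x) ^ 2)) * e2
    rw [e1]
    apply mul_le_mul_of_nonneg_left _ hδ0.le
    have e3 : SS x ^ n * ((2 * SS x - 1) * ((1 - ρ) + 2 * ρ * SS x * (3 - 4 * SS x) ^ 2)) -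
      ((1 - ρ) * (2 * SS x ^ (n + 1) - SS x ^ n) +
      2 * ρ * (10 * SS x ^ (n + 2) - 9 * SS x ^ (n + 1))) =
      2 * ρ * SS x ^ (n + 1) * (32 * SS x * (SS x - 1) ^ 2) := by
      ring
    have e4 : 0 ≤ 2 * ρ * SS x ^ (n + 1) * (32 * SS x * (SS x - 1) ^ 2) := by
      have := pow_nonneg h0 (n + 1)
      have := sq_nonneg (SS x - 1)
      positivity
    linarith
  have hval : ∫ x, δ * ((1 - ρ) * (2 * SS x ^ (n + 1) - SS x ^ n) +
      2 * ρ * (10 * SS x ^ (n + 2) - 9 * SS x ^ (n + 1))) ∂mm =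
      δ * ((1 - ρ) * (2 * ww (n + 1) - ww n) + 2 * ρ * (10 * ww (n + 2) - 9 * ww (n + 1))) := by
    rw [integral_const_mul, integral_add (integrable_of_cont (by fun_prop) _)
      (integrable_of_cont (by fun_prop) _), integral_const_mul, integral_const_mul,
      integral_sub (integrable_of_cont (by fun_prop) _) (integrable_of_cont (by fun_prop) _),
      integral_sub (integrable_of_cont (by fun_prop) _) (integrable_of_cont (by fun_prop) _),
      integral_const_mul, integral_const_mul, integral_const_mul,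
      integral_SS_pow, integral_SS_pow, integral_SS_pow]
  have hmono := integral_mono (μ := (mm)) (integrable_of_cont (by fun_prop) _)
    (integrable_of_cont (((hs.pow n).mul (RTP_GG _ _).continuous).sub
      ((hs.pow n).mul (RTP_GG _ _).continuous)) _) hpt
  rw [hval] at hmono
  refine le_trans ?_ hmono
  -- numeric part
  have hw := ww_pos n
  have hw1 := ww_succ n
  have hw2 := ww_succ (n + 1)
  push_cast at hw2
  have hwp1 := ww_pos (n + 1)
  have a1 : 0 ≤ 2 * ww (n + 1) - ww n := by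
    rw [hw1]
    have : 2 * (ww n * ((2 * (n : ℝ) + 1) / (2 * n + 2))) - ww n = ww n * (n / (n + 1)) := by
      field_simp
      ring
    rw [this]; positivity
  have a2 : 1 / 2 * ww (n + 1) ≤ 10 * ww (n + 2) - 9 * ww (n + 1) := by
    have : ww (n + 2) = ww (n + 1) * ((2 * ((n : ℝ) + 1) + 1) / (2 * (n + 1) + 2)) := hw2
    rw [this]
    have h3 : (19 : ℝ) / 20 ≤ (2 * ((n : ℝ) + 1) + 1) / (2 * (n + 1) + 2) := by
      rw [div_le_div_iff₀ (by norm_num) (by positivity)]
      linarith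
    nlinarith
  have a3 : 17 / 18 * ww n ≤ ww (n + 1) := by
    rw [hw1]
    have h3 : (17 : ℝ) / 18 ≤ (2 * (n : ℝ) + 1) / (2 * n + 2) := by
      rw [div_le_div_iff₀ (by norm_num) (by positivity)]
      linarith
    nlinarith
  have a4 := ww_ge (n := n) (by omega)
  have a5 : ρ * ww (n + 1) ≤ (1 - ρ) * (2 * ww (n + 1) - ww n) +
      2 * ρ * (10 * ww (n + 2) - 9 * ww (n + 1)) := by
    have h3 : 0 ≤ (1 - ρ) * (2 * ww (n + 1) - ww n) := mul_nonneg (by linarith) a1
    have h4 : 2 * ρ * (1 / 2 * ww (n + 1)) ≤ 2 * ρ * (10 * ww (n + 2) - 9 * ww (n + 1)) :=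
      mul_le_mul_of_nonneg_left a2 (by linarith)
    linarith
  have a6 : 1 / 4 * (1 / √n) ≤ ρ * ww (n + 1) := by
    have h3 : 17 / 18 * (1 / (2 * √(n : ℝ))) ≤ ww (n + 1) := le_trans (by linarith) a3
    have h4 : 1 / (2 * √(n : ℝ)) = 1 / 2 * (1 / √n) := by field_simp
    rw [h4] at h3
    have h5 : 0 < 1 / √(n : ℝ) := by positivity
    nlinarith
  calc 1 / 8 * (1 / (n * √n)) = δ * (1 / 4 * (1 / √n)) := by
        rw [hδ]; field_simp; norm_num
    _ ≤ δ * (ρ * ww (n + 1)) := mul_le_mul_of_nonneg_left a6 hδ0.le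
    _ ≤ _ := mul_le_mul_of_nonneg_left a5 hδ0.le

/-- the second moment bound -/
theorem block_second {n : ℕ} (hn : 8 ≤ n) {γ : ℝ} (hγ : 1 - 1 / n ≤ γ) (hγ1 : γ ≤ 1) :
    ∫ x, SS x ^ n * SS x ^ n * GG γ (-(1 - 1 / n)) x ∂mm ≤ 3 / 2 * (1 / (n * √n)) := by
  have hn' : (8 : ℝ) ≤ n := by exact_mod_cast hn
  have hpos : 0 < √(n : ℝ) := Real.sqrt_pos.2 (by linarith)
  have hs := SSc
  have hinv : (1 : ℝ) / n ≤ 1 / 8 := one_div_le_one_div_of_le (by norm_num) hn'
  have hinv0 : 0 < (1 : ℝ) / n := by positivity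
  set ρ : ℝ := 1 - 1 / n with hρ
  have hρabs : |(-ρ)| ≤ 1 := by
    rw [abs_neg, abs_le]; constructor <;> linarith
  have hpt : ∀ x, SS x ^ n * SS x ^ n * GG γ (-ρ) x ≤
      2 * (1 + γ) * SS x ^ (2 * n) - 4 * γ * SS x ^ (2 * n + 1) := by
    intro x
    have h0 := SS_nonneg x
    have h2 : |4 * CC x ^ 3 - 3 * CC x| ≤ 1 := by
      rw [← fourier_three_re]
      exact (Complex.abs_re_le_norm _).trans (fourier_norm_le 3 x)
    have h3 : |-ρ * (4 * CC x ^ 3 - 3 * CC x)| ≤ 1 := by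
      rw [abs_mul]; exact mul_le_one₀ hρabs (abs_nonneg _) h2
    have h4 : 1 + -ρ * (4 * CC x ^ 3 - 3 * CC x) ≤ 2 := by
      linarith [le_abs_self (-ρ * (4 * CC x ^ 3 - 3 * CC x))]
    have h5 : 0 ≤ 1 + γ * CC x := by
      obtain ⟨h6, h7⟩ := CC_bounds x
      nlinarith
    have h6 : GG γ (-ρ) x ≤ (1 + γ * CC x) * 2 := by
      rw [GG]; exact mul_le_mul_of_nonneg_left h4 h5
    have h7 : SS x ^ n * SS x ^ n = SS x ^ (2 * n) := by ring
    rw [h7]
    calc SS x ^ (2 * n) * GG γ (-ρ) x ≤ SS x ^ (2 * n) * ((1 + γ * CC x) * 2) :=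
          mul_le_mul_of_nonneg_left h6 (pow_nonneg h0 _)
      _ = 2 * (1 + γ) * SS x ^ (2 * n) - 4 * γ * SS x ^ (2 * n + 1) := by
          rw [CC_eq]; ring
  have hmono := integral_mono (μ := (mm))
    (integrable_of_cont (((hs.pow n).mul (hs.pow n)).mul (RTP_GG _ _).continuous) _)
    (integrable_of_cont (by fun_prop) _) hpt
  refine hmono.trans ?_
  rw [integral_sub (integrable_of_cont (by fun_prop) _) (integrable_of_cont (by fun_prop) _),
    integral_const_mul, integral_const_mul, integral_SS_pow, integral_SS_pow, ww_succ]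
  push_cast
  have hw := ww_pos (2 * n)
  have hw2 := ww_two_le (n := n) (by omega)
  have e1 : 2 * (1 + γ) * ww (2 * n) - 4 * γ * (ww (2 * n) * ((2 * (2 * (n : ℝ)) + 1) / (2 * (2 * n) + 2)))
      = ww (2 * n) * (2 * (1 - γ) + 2 * γ / (2 * n + 1)) := by
    field_simp
    ring
  rw [e1]
  have e2 : 2 * (1 - γ) + 2 * γ / (2 * n + 1) ≤ 3 * (1 / n) := by
    have h3 : 2 * γ / (2 * n + 1) ≤ 1 / n := by
      rw [div_le_div_iff₀ (by positivity) (by positivity)]
      nlinarith
    linarith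
  calc ww (2 * n) * (2 * (1 - γ) + 2 * γ / (2 * n + 1)) ≤ ww (2 * n) * (3 * (1 / n)) :=
        mul_le_mul_of_nonneg_left e2 hw.le
    _ ≤ 1 / (2 * √n) * (3 * (1 / n)) := mul_le_mul_of_nonneg_right hw2 (by positivity)
    _ = 3 / 2 * (1 / (n * √n)) := by field_simp

/-- abstract: quadratic test-function inequality gives absolute continuity -/
theorem ac_of_test {μ ν : Measure TT} [IsFiniteMeasure μ] [IsFiniteMeasure ν] {C : ℝ}
    (h : ∀ (f : C(TT, ℝ)) (t : ℝ), 0 < t →
      2 * ∫ x, f x ∂μ ≤ t * ∫ x, f x ^ 2 ∂ν + C / t) : μ ≪ ν := by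
  have hC : 0 ≤ C := by
    have := h 0 1 one_pos
    simpa using this
  refine Measure.AbsolutelyContinuous.mk fun E hE hνE => ?_
  by_contra hne
  have hpos : 0 < μ E := pos_iff_ne_zero.2 hne
  -- inner compact set
  obtain ⟨K, hKE, hKc, hKpos⟩ := hE.exists_lt_isCompact_of_ne_top (measure_ne_top μ E) hpos
  have hνK : ν K = 0 := measure_mono_null hKE hνE
  set κ : ℝ := μ.real K with hκ
  have hκpos : 0 < κ := ENNReal.toReal_pos hKpos.ne' (measure_ne_top _ _)
  -- choose t with C / t < κ, then U with t * ν U < κ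
  obtain ⟨t, ht0, ht⟩ : ∃ t : ℝ, 0 < t ∧ C / t < κ := by
    refine ⟨(C + 1) / κ, by positivity, ?_⟩
    rw [div_div_eq_mul_div, div_lt_iff₀ (by positivity)]
    nlinarith
  obtain ⟨U, hKU, hUo, hU⟩ := K.exists_isOpen_lt_of_lt (μ := ν) (ENNReal.ofReal (κ / t)) (by
    rw [hνK]; exact ENNReal.ofReal_pos.2 (by positivity))
  have hνU : ν.real U < κ / t := by
    rw [measureReal_def]
    exact (ENNReal.lt_ofReal_iff_toReal_lt (measure_ne_top _ _)).1 hU
  obtain ⟨f, hf0, hf1, hf⟩ := exists_continuous_zero_one_of_isCompact' hKc (isClosed_compl_iff.2 hUo)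
    (Set.disjoint_compl_right_iff_subset.2 hKU)
  have h1 := h f t ht0
  have h2 : κ ≤ ∫ x, f x ∂μ := by
    have h3 : ∫ x, K.indicator 1 x ∂μ = κ := by
      rw [integral_indicator_one hKc.measurableSet]
    rw [← h3]
    refine integral_mono ?_ (integrable_of_cont f.continuous _) ?_
    · exact (integrable_const (1 : ℝ)).indicator hKc.measurableSet
    · intro x
      by_cases hx : x ∈ K
      · simp only [Set.indicator_of_mem hx, Pi.one_apply]
        have := hf1 hx
        rw [Pi.one_apply] at this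
        rw [this]
      · simp only [Set.indicator_of_notMem hx]
        exact (hf x).1
  have h4 : ∫ x, f x ^ 2 ∂ν ≤ ν.real U := by
    rw [← integral_indicator_one hUo.measurableSet]
    refine integral_mono (integrable_of_cont (f.continuous.pow 2) _) ?_ ?_
    · exact (integrable_const (1 : ℝ)).indicator hUo.measurableSet
    · intro x
      by_cases hx : x ∈ U
      · simp only [Set.indicator_of_mem hx, Pi.one_apply]
        have := hf x
        exact pow_le_one₀ this.1 this.2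
      · simp only [Set.indicator_of_notMem hx]
        have := hf0 hx
        rw [Pi.zero_apply] at this
        rw [this]; norm_num
  have h5 : t * ν.real U < κ := by
    calc t * ν.real U < t * (κ / t) := mul_lt_mul_of_pos_left hνU ht0
      _ = κ := by field_simp
  have h6 : t * ∫ x, f x ^ 2 ∂ν ≤ t * ν.real U := mul_le_mul_of_nonneg_left h4 ht0.le
  linarith

/-- abstract Chebyshev criterion for mutual singularity -/
theorem ms_of_cheb {μ ν : Measure TT} [IsFiniteMeasure μ] [IsFiniteMeasure ν]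
    (S : ℕ → TT → ℝ) (hS : ∀ K, Continuous (S K)) (E E' V g : ℕ → ℝ)
    (hg : ∀ K, E K + g K ≤ E' K) (hg0 : ∀ᶠ K in atTop, 0 < g K)
    (h1 : ∀ K, ∫ x, (S K x - E K) ^ 2 ∂μ ≤ V K)
    (h2 : ∀ K, ∫ x, (S K x - E' K) ^ 2 ∂ν ≤ V K)
    (hV : Tendsto (fun K => V K / g K ^ 2) atTop (𝓝 0)) : μ ⟂ₘ ν := by
  apply Measure.mutuallySingular_of_disjoint
  rw [disjoint_iff_inf_le]
  set ρ := μ ⊓ ν with hρ
  have hρμ : ρ ≤ μ := inf_le_left
  have hρν : ρ ≤ ν := inf_le_right
  have hfin : IsFiniteMeasure ρ := isFiniteMeasure_of_le μ hρμ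
  have key : ∀ᶠ K in atTop, ρ.real Set.univ ≤ 8 * (V K / g K ^ 2) := by
    filter_upwards [hg0] with K hK
    set A : Set TT := {x | (g K / 2) ^ 2 ≤ (S K x - E K) ^ 2} with hA
    set B : Set TT := {x | (g K / 2) ^ 2 ≤ (S K x - E' K) ^ 2} with hB
    have hAB : Set.univ ⊆ A ∪ B := by
      intro x _
      by_contra hx
      simp only [Set.mem_union, hA, hB, Set.mem_ofPred_eq, not_or, not_le] at hx
      obtain ⟨hx1, hx2⟩ := hx
      have h3 := abs_lt_of_sq_lt_sq hx1 (by linarith)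
      have h4 := abs_lt_of_sq_lt_sq hx2 (by linarith)
      rw [abs_lt] at h3 h4
      have := hg K
      linarith
    have m1 : (g K / 2) ^ 2 * μ.real A ≤ V K :=
      (mul_meas_ge_le_integral_of_nonneg (Eventually.of_forall fun x => sq_nonneg _)
        (integrable_of_cont (((hS K).sub continuous_const).pow 2) _) _).trans (h1 K)
    have m2 : (g K / 2) ^ 2 * ν.real B ≤ V K :=
      (mul_meas_ge_le_integral_of_nonneg (Eventually.of_forall fun x => sq_nonneg _)
        (integrable_of_cont (((hS K).sub continuous_const).pow 2) _) _).trans (h2 K)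
    have m3 : ρ.real Set.univ ≤ ρ.real A + ρ.real B :=
      (measureReal_mono hAB).trans (measureReal_union_le A B)
    have m4 : ρ.real A ≤ μ.real A := ENNReal.toReal_mono (measure_ne_top _ _) (hρμ A)
    have m5 : ρ.real B ≤ ν.real B := ENNReal.toReal_mono (measure_ne_top _ _) (hρν B)
    have hgk : 0 < g K ^ 2 := by positivity
    have m6 : μ.real A ≤ 4 * (V K / g K ^ 2) := by
      rw [← mul_div_assoc, le_div_iff₀ hgk]
      nlinarith
    have m7 : ν.real B ≤ 4 * (V K / g K ^ 2) := by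
      rw [← mul_div_assoc, le_div_iff₀ hgk]
      nlinarith
    linarith
  have hlim : Tendsto (fun K => 8 * (V K / g K ^ 2)) atTop (𝓝 0) := by
    simpa using hV.const_mul 8
  have h0 : ρ.real Set.univ ≤ 0 := ge_of_tendsto hlim key
  have h0' : ρ.real Set.univ = 0 := le_antisymm h0 measureReal_nonneg
  rw [measureReal_def, ENNReal.toReal_eq_zero_iff] at h0'
  rcases h0' with h | h
  · rw [Measure.measure_univ_eq_zero] at h
    rw [h]
    exact le_rfl
  · exact absurd h (measure_ne_top _ _)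

section blocks

variable (m : ℕ → ℕ) (Nn : ℕ → ℕ)

/-- block structure of the frequencies -/
structure Blk (m Nn : ℕ → ℕ) : Prop where
  h0 : Nn 0 = 1
  hN : ∀ k, Nn (k + 1) = ((4 + 2 * m k) + 1) * Nn k

/-- limit of the block products -/
def BLim (Nn : ℕ → ℕ) (γ τ : ℕ → ℝ) (μ : Measure TT) : Prop :=
  ∀ f : C(TT, ℝ), Tendsto (fun K => ∫ x, f x * ∏ k ∈ range K, GG (γ k) (τ k) (Nn k • x) ∂mm)
    atTop (𝓝 (∫ x, f x ∂μ))

variable {m Nn}

theorem cont_dil (N : ℕ) : Continuous (fun x : TT => N • x) := (dil N).continuous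

theorem blk_prod (hB : Blk m Nn) {γ τ : ℕ → ℝ} {μ : Measure TT} (hμ : BLim Nn γ τ μ)
    (p : ℕ → TT → ℝ) (hp : ∀ k, RTP (4 + 2 * m k) (fun x => p k x * GG (γ k) (τ k) x))
    (hpc : ∀ k, Continuous (p k)) (K : ℕ) (hK : ∀ k, K ≤ k → p k = fun _ => 1) :
    ∫ x, ∏ k ∈ range K, p k (Nn k • x) ∂μ = ∏ k ∈ range K, ∫ x, p k x * GG (γ k) (τ k) x ∂mm := by
  have hcont : Continuous (fun x : TT => ∏ k ∈ range K, p k (Nn k • x)) :=
    continuous_finsetProd _ fun k _ => (hpc k).comp (cont_dil _)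
  have h1 := hμ ⟨_, hcont⟩
  simp only [ContinuousMap.coe_mk] at h1
  refine tendsto_nhds_unique h1 ?_
  refine tendsto_const_nhds.congr' ?_
  filter_upwards [eventually_ge_atTop K] with K' hK'
  have h2 : ∀ x : TT, (∏ k ∈ range K, p k (Nn k • x)) * ∏ k ∈ range K', GG (γ k) (τ k) (Nn k • x) =
      ∏ k ∈ range K', (p k (Nn k • x) * GG (γ k) (τ k) (Nn k • x)) := by
    intro x
    rw [prod_mul_distrib]
    congr 1
    refine prod_subset (range_subset_range.2 hK') fun k _ hk => ?_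
    rw [hK k (by simpa using hk)]
  simp_rw [h2]
  have h3 := (prod_indep Nn (fun k => 4 + 2 * m k) (by rw [hB.h0]) hB.hN
    (fun k x => p k x * GG (γ k) (τ k) x) hp K').2
  rw [h3]
  refine prod_subset (range_subset_range.2 hK') fun k _ hk => ?_
  rw [hK k (by simpa using hk)]
  simp_rw [one_mul]
  exact integral_GG _ _

theorem blk_test (hB : Blk m Nn) (γ γ' ρ : ℕ → ℝ)
    {μ μ' : Measure TT} (hμ : BLim Nn γ ρ μ) (hμ' : BLim Nn γ' ρ μ')
    (hγ' : ∀ k x, 0 < GG (γ' k) (ρ k) x)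
    (hsq : ∀ k x, GG (γ k) (ρ k) x ^ 2 ≤ QQ (γ k) (γ' k) (ρ k) x * GG (γ' k) (ρ k) x)
    {C : ℝ} (hC : ∀ K, ∏ k ∈ range K, (1 + 11 * (γ k - γ' k) ^ 2) ≤ C)
    (f : C(TT, ℝ)) (t : ℝ) (ht : 0 < t) :
    2 * ∫ x, f x ∂μ ≤ t * ∫ x, f x ^ 2 ∂μ' + C / t := by
  have h1 := (hμ f).const_mul 2
  have h2 := ((hμ' (f ^ 2)).const_mul t).add_const (C / t)
  refine le_of_tendsto_of_tendsto h1 h2 ?_
  refine Eventually.of_forall fun K => ?_
  simp only [ContinuousMap.pow_apply]
  have hc1 : ∀ γ : ℕ → ℝ, Continuous (fun x : TT => ∏ k ∈ range K, GG (γ k) (ρ k) (Nn k • x)) :=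
    fun γ => continuous_finsetProd _ fun k _ => (RTP_GG _ _).continuous.comp (cont_dil _)
  have hc2 : Continuous (fun x : TT => ∏ k ∈ range K, QQ (γ k) (γ' k) (ρ k) (Nn k • x)) :=
    continuous_finsetProd _ fun k _ => (RTP_QQ _ _ _).continuous.comp (cont_dil _)
  have hpt : ∀ x, 2 * (f x * ∏ k ∈ range K, GG (γ k) (ρ k) (Nn k • x)) ≤
      t * (f x ^ 2 * ∏ k ∈ range K, GG (γ' k) (ρ k) (Nn k • x)) +
      (1 / t) * ∏ k ∈ range K, QQ (γ k) (γ' k) (ρ k) (Nn k • x) := by
    intro x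
    set a := ∏ k ∈ range K, GG (γ k) (ρ k) (Nn k • x)
    set b := ∏ k ∈ range K, GG (γ' k) (ρ k) (Nn k • x) with hb
    set q := ∏ k ∈ range K, QQ (γ k) (γ' k) (ρ k) (Nn k • x)
    have hb0 : 0 < b := prod_pos fun k _ => hγ' k _
    have haq : a ^ 2 ≤ q * b := by
      simp only [a, b, q]
      rw [← prod_pow, ← prod_mul_distrib]
      exact prod_le_prod (fun k _ => sq_nonneg _) fun k _ => hsq k _
    have h3 : 0 ≤ (t * f x * b - a) ^ 2 := sq_nonneg _
    have h4 : 0 ≤ (t * (f x ^ 2 * b) + 1 / t * q - 2 * (f x * a)) * (t * b) := by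
      have : (t * (f x ^ 2 * b) + 1 / t * q - 2 * (f x * a)) * (t * b) =
        (t * f x * b - a) ^ 2 + (q * b - a ^ 2) := by
        field_simp
        ring
      rw [this]; linarith
    have h5 := nonneg_of_mul_nonneg_left h4 (by positivity)
    linarith
  have hi1 : Integrable (fun x => 2 * (f x * ∏ k ∈ range K, GG (γ k) (ρ k) (Nn k • x))) mm :=
    integrable_of_cont (continuous_const.mul (f.continuous.mul (hc1 γ))) _
  have hi2 : Integrable (fun x => t * (f x ^ 2 * ∏ k ∈ range K, GG (γ' k) (ρ k) (Nn k • x))) mm :=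
    integrable_of_cont (continuous_const.mul ((f.continuous.pow 2).mul (hc1 γ'))) _
  have hi3 : Integrable (fun x => (1 / t) * ∏ k ∈ range K, QQ (γ k) (γ' k) (ρ k) (Nn k • x)) mm :=
    integrable_of_cont (continuous_const.mul hc2) _
  have hmono := integral_mono (μ := (mm)) hi1 (hi2.add hi3) hpt
  simp only [Pi.add_apply] at hmono
  rw [integral_const_mul, integral_add hi2 hi3, integral_const_mul, integral_const_mul] at hmono
  have hQ := (prod_indep Nn (fun k => 4 + 2 * m k) (by rw [hB.h0]) hB.hN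
    (fun k x => QQ (γ k) (γ' k) (ρ k) x) (fun k => (RTP_QQ _ _ _).mono (by omega)) K).2
  simp_rw [integral_QQ] at hQ
  rw [hQ] at hmono
  have hCK : 1 / t * ∏ k ∈ range K, (1 + 11 * (γ k - γ' k) ^ 2) ≤ C / t := by
    rw [one_div, inv_mul_eq_div]
    exact div_le_div_of_nonneg_right (hC K) ht.le
  linarith

/-- second moment of the centred sums -/
theorem blk_var (hB : Blk m Nn) {γ τ : ℕ → ℝ} {μ : Measure TT} [IsFiniteMeasure μ]
    (hμ : BLim Nn γ τ μ) (K : ℕ) :
    ∫ x, ((∑ k ∈ range K, SS (Nn k • x) ^ m k) -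
      ∑ k ∈ range K, ∫ y, SS y ^ m k * GG (γ k) (τ k) y ∂mm) ^ 2 ∂μ ≤
    ∑ k ∈ range K, ∫ y, SS y ^ m k * SS y ^ m k * GG (γ k) (τ k) y ∂mm := by
  set A : ℕ → ℝ := fun k => ∫ y, SS y ^ m k * GG (γ k) (τ k) y ∂mm with hA
  set X : ℕ → TT → ℝ := fun k x => SS (Nn k • x) ^ m k - A k with hX
  have hs := SSc
  have hXc : ∀ k, Continuous (X k) := fun k =>
    ((hs.comp (cont_dil _)).pow _).sub continuous_const
  -- individual covariances
  have hcov : ∀ k l, ∫ x, X k x * X l x ∂μ =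
      if k = l then ∫ y, (SS y ^ m k - A k) * (SS y ^ m k - A k) * GG (γ k) (τ k) y ∂mm else 0 := by
    intro k l
    set K := max k l + 1 with hKdef
    set P : ℕ → ℕ → TT → ℝ := fun k j x => if j = k then SS x ^ m j - A j else 1 with hP
    have hPR : ∀ k j, RTP (m j) (P k j) := by
      intro k j
      by_cases hjk : j = k
      · have : P k j = fun x => SS x ^ m j - A j := by ext x; simp [hP, hjk]
        rw [this]
        exact (RTP_SSpow _).sub (RTP.const _ _)
      · have : P k j = fun x => 1 := by ext x; simp [hP, hjk]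
        rw [this]
        exact RTP.const _ _
    set p : ℕ → TT → ℝ := fun j x => P k j x * P l j x with hp
    have hpR : ∀ j, RTP (m j + m j) (p j) := fun j => (hPR k j).mul (hPR l j)
    have h1 := blk_prod hB hμ p (fun j => by
      have := (hpR j).mul (RTP_GG (γ j) (τ j))
      exact this.mono (by omega)) (fun j => (hpR j).continuous) K (fun j hj => by
        ext x
        have h2 : j ≠ k := by omega
        have h3 : j ≠ l := by omega
        simp [hp, hP, h2, h3])
    have h2 : ∀ x : TT, ∏ j ∈ range K, p j (Nn j • x) = X k x * X l x := by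
      intro x
      simp only [hp]
      rw [prod_mul_distrib]
      congr 1
      · rw [prod_eq_single k]
        · simp [hP, hX]
        · intro j _ hj; simp [hP, hj]
        · intro hk; exact absurd (mem_range.2 (by omega)) hk
      · rw [prod_eq_single l]
        · simp [hP, hX]
        · intro j _ hj; simp [hP, hj]
        · intro hk; exact absurd (mem_range.2 (by omega)) hk
    simp_rw [h2] at h1
    rw [h1]
    by_cases hkl : k = l
    · subst hkl
      rw [if_pos rfl, prod_eq_single k]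
      · simp [hp, hP]
      · intro j _ hj
        have : ∀ x, p j x * GG (γ j) (τ j) x = GG (γ j) (τ j) x := by
          intro x; simp [hp, hP, hj]
        simp_rw [this]
        exact integral_GG _ _
      · intro hk; exact absurd (mem_range.2 (by omega)) hk
    · rw [if_neg hkl]
      refine prod_eq_zero (i := k) (mem_range.2 (by omega)) ?_
      have : ∀ x, p k x * GG (γ k) (τ k) x = SS x ^ m k * GG (γ k) (τ k) x - A k * GG (γ k) (τ k) x := by
        intro x; simp [hp, hP, hkl]; ring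
      simp_rw [this]
      have hg := (RTP_GG (γ k) (τ k)).continuous
      rw [integral_sub (integrable_of_cont (by fun_prop) _) (integrable_of_cont (by fun_prop) _),
        integral_const_mul, integral_GG]
      simp [hA]
  have h1 : ∀ x : TT, ((∑ k ∈ range K, SS (Nn k • x) ^ m k) - ∑ k ∈ range K, A k) ^ 2 =
      ∑ k ∈ range K, ∑ l ∈ range K, X k x * X l x := by
    intro x
    rw [← sum_sub_distrib, pow_two, sum_mul_sum]
  simp_rw [h1]
  have hi : ∀ k l, Integrable (fun x => X k x * X l x) μ := fun k l =>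
    integrable_of_cont ((hXc k).mul (hXc l)) _
  have hi' : ∀ k, Integrable (fun x => ∑ l ∈ range K, X k x * X l x) μ := fun k =>
    integrable_finsetSum _ fun l _ => hi k l
  rw [integral_finsetSum _ fun k _ => hi' k]
  refine sum_le_sum fun k hk => ?_
  rw [integral_finsetSum _ fun l _ => hi k l]
  simp_rw [hcov]
  rw [sum_ite_eq, if_pos hk]
  have h2 : ∀ y, (SS y ^ m k - A k) * (SS y ^ m k - A k) * GG (γ k) (τ k) y =
      SS y ^ m k * SS y ^ m k * GG (γ k) (τ k) y - ((2 * A k) * (SS y ^ m k * GG (γ k) (τ k) y) -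
      A k ^ 2 * GG (γ k) (τ k) y) := by
    intro y; ring
  simp_rw [h2]
  have hg := (RTP_GG (γ k) (τ k)).continuous
  rw [integral_sub (integrable_of_cont (by fun_prop) _) (integrable_of_cont (by fun_prop) _),
    integral_sub (integrable_of_cont (by fun_prop) _) (integrable_of_cont (by fun_prop) _),
    integral_const_mul, integral_const_mul, integral_GG]
  have h3 : ∫ y, SS y ^ m k * GG (γ k) (τ k) y ∂mm = A k := rfl
  rw [h3]
  nlinarith [sq_nonneg (A k)]

end blocks

/-- block sizes -/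
noncomputable def mk (k : ℕ) : ℕ := ⌈(((k : ℝ) + 1) ^ (1 / 3 : ℝ)) ^ 2⌉₊ + 8

/-- block starting frequencies -/
noncomputable def Nk : ℕ → ℕ
  | 0 => 1
  | k + 1 => ((4 + 2 * mk k) + 1) * Nk k

theorem blk : Blk mk Nk := ⟨rfl, fun _ => rfl⟩

theorem mk_ge (k : ℕ) : 8 ≤ mk k := by unfold mk; omega

theorem Nk_pos (k : ℕ) : 1 ≤ Nk k := by
  induction k with
  | zero => exact le_rfl
  | succ k ih =>
    rw [Nk]
    nlinarith

/-- `(k + 1)^(1/3)` -/
noncomputable def rk (k : ℕ) : ℝ := ((k : ℝ) + 1) ^ (1 / 3 : ℝ)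

theorem rk_ge (k : ℕ) : 1 ≤ rk k := Real.one_le_rpow (by linarith [Nat.cast_nonneg (α := ℝ) k]) (by norm_num)

theorem rk_cube (k : ℕ) : rk k ^ 3 = k + 1 := by
  unfold rk
  rw [← Real.rpow_natCast, ← Real.rpow_mul (by positivity)]
  norm_num

theorem mk_lower (k : ℕ) : rk k ^ 2 ≤ mk k := by
  unfold mk
  push_cast
  have := Nat.le_ceil ((((k : ℝ) + 1) ^ (1 / 3 : ℝ)) ^ 2)
  unfold rk
  linarith

theorem mk_upper (k : ℕ) : (mk k : ℝ) ≤ 10 * rk k ^ 2 := by
  unfold mk
  push_cast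
  have h1 := Nat.ceil_lt_add_one (a := (((k : ℝ) + 1) ^ (1 / 3 : ℝ)) ^ 2) (by positivity)
  have h2 := rk_ge k
  have h3 : (((k : ℝ) + 1) ^ (1 / 3 : ℝ)) ^ 2 = rk k ^ 2 := rfl
  rw [h3] at h1 ⊢
  nlinarith

theorem summable_mk : Summable (fun k => 1 / (mk k : ℝ) ^ 2) := by
  have h1 : Summable (fun k : ℕ => 1 / (k : ℝ) ^ (4 / 3 : ℝ)) :=
    Real.summable_one_div_nat_rpow.2 (by norm_num)
  have h2 := (summable_nat_add_iff 1).2 h1
  refine Summable.of_nonneg_of_le (fun k => by positivity) (fun k => ?_) h2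
  push_cast
  have hr := rk_ge k
  have h3 : ((k : ℝ) + 1) ^ (4 / 3 : ℝ) = rk k ^ 4 := by
    unfold rk
    rw [← Real.rpow_natCast, ← Real.rpow_mul (by positivity)]
    norm_num
  rw [h3]
  have h4 := mk_lower k
  apply one_div_le_one_div_of_le (by positivity)
  calc rk k ^ 4 = (rk k ^ 2) ^ 2 := by ring
    _ ≤ (mk k : ℝ) ^ 2 := pow_le_pow_left₀ (by positivity) h4 2

/-- the divergent weights -/
noncomputable def uk (k : ℕ) : ℝ := 1 / ((mk k : ℝ) * √(mk k : ℝ))

theorem mk_posR (k : ℕ) : (8 : ℝ) ≤ mk k := by exact_mod_cast mk_ge k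

theorem uk_pos (k : ℕ) : 0 < uk k := by
  have := mk_posR k
  have : 0 < √(mk k : ℝ) := Real.sqrt_pos.2 (by linarith)
  unfold uk; positivity

theorem uk_ge (k : ℕ) : 1 / 40 * (1 / ((k : ℝ) + 1)) ≤ uk k := by
  have h1 := mk_posR k
  have h2 := mk_upper k
  have hr := rk_ge k
  have h3 : √(mk k : ℝ) ≤ 4 * rk k := by
    rw [Real.sqrt_le_left (by linarith)]
    nlinarith
  have h4 : 0 < √(mk k : ℝ) := Real.sqrt_pos.2 (by linarith)
  have h5 : (mk k : ℝ) * √(mk k : ℝ) ≤ 40 * ((k : ℝ) + 1) := by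
    calc (mk k : ℝ) * √(mk k : ℝ) ≤ (10 * rk k ^ 2) * (4 * rk k) :=
          mul_le_mul h2 h3 h4.le (by positivity)
      _ = 40 * rk k ^ 3 := by ring
      _ = 40 * ((k : ℝ) + 1) := by rw [rk_cube]
  unfold uk
  have h6 : 1 / 40 * (1 / ((k : ℝ) + 1)) = 1 / (40 * ((k : ℝ) + 1)) := by
    field_simp
  rw [h6]
  exact one_div_le_one_div_of_le (by positivity) h5

theorem tendsto_uk : Tendsto (fun K => ∑ k ∈ range K, uk k) atTop atTop := by
  have h1 : Tendsto (fun K : ℕ => 1 / 40 * ∑ k ∈ range K, (1 / ((k : ℝ) + 1))) atTop atTop :=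
    Real.tendsto_sum_range_one_div_nat_succ_atTop.const_mul_atTop (by norm_num)
  refine tendsto_atTop_mono (fun K => ?_) h1
  rw [mul_sum]
  exact sum_le_sum fun k _ => uk_ge k

/-- amplitude of `a` at `N_k` -/
noncomputable def al (k : ℕ) : ℝ := 1 - 1 / (2 * (mk k : ℝ))
/-- amplitude of `b` at `N_k`, and of both at `3 N_k` -/
noncomputable def be (k : ℕ) : ℝ := 1 - 1 / (mk k : ℝ)

theorem be_bounds (k : ℕ) : 7 / 8 ≤ be k ∧ be k < 1 := by
  have h := mk_posR k
  have h1 : (1 : ℝ) / mk k ≤ 1 / 8 := one_div_le_one_div_of_le (by norm_num) h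
  have h2 : (0 : ℝ) < 1 / mk k := by positivity
  unfold be
  constructor <;> linarith

theorem al_eq (k : ℕ) : al k = be k + 1 / (2 * (mk k : ℝ)) := by
  have h := mk_posR k
  unfold al be
  field_simp
  ring

theorem al_bounds (k : ℕ) : 7 / 8 ≤ al k ∧ al k < 1 := by
  have h := mk_posR k
  have h2 : (0 : ℝ) < 1 / (2 * (mk k : ℝ)) := by positivity
  have h3 := be_bounds k
  constructor
  · rw [al_eq]; linarith
  · unfold al; linarith

theorem prod_bound : ∃ C : ℝ, ∀ K, ∏ k ∈ range K, (1 + 11 * (al k - be k) ^ 2) ≤ C := by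
  refine ⟨Real.exp (∑' k, 11 / 4 * (1 / (mk k : ℝ) ^ 2)), fun K => ?_⟩
  have h1 : ∀ k, 1 + 11 * (al k - be k) ^ 2 ≤ Real.exp (11 / 4 * (1 / (mk k : ℝ) ^ 2)) := by
    intro k
    have h := mk_posR k
    have : 11 * (al k - be k) ^ 2 = 11 / 4 * (1 / (mk k : ℝ) ^ 2) := by
      rw [al_eq]; field_simp; ring
    rw [this, add_comm]
    exact Real.add_one_le_exp _
  calc ∏ k ∈ range K, (1 + 11 * (al k - be k) ^ 2)
      ≤ ∏ k ∈ range K, Real.exp (11 / 4 * (1 / (mk k : ℝ) ^ 2)) :=
        prod_le_prod (fun k _ => by positivity) fun k _ => h1 k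
    _ = Real.exp (∑ k ∈ range K, 11 / 4 * (1 / (mk k : ℝ) ^ 2)) := (Real.exp_sum _ _).symm
    _ ≤ _ := by
        apply Real.exp_le_exp.2
        exact (summable_mk.mul_left _).sum_le_tsum _ fun k _ => by positivity

/-- frequencies -/
noncomputable def lamS (n : ℕ) : ℕ := (if n % 2 = 0 then 1 else 3) * Nk (n / 2)

/-- coefficients -/
noncomputable def cf (γ τ : ℕ → ℝ) (n : ℕ) : ℝ := if n % 2 = 0 then γ (n / 2) else τ (n / 2)

theorem lamS_even (k : ℕ) : lamS (2 * k) = Nk k := by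
  unfold lamS
  rw [if_pos (by omega), show 2 * k / 2 = k by omega, one_mul]

theorem lamS_odd (k : ℕ) : lamS (2 * k + 1) = 3 * Nk k := by
  unfold lamS
  rw [if_neg (by omega), show (2 * k + 1) / 2 = k by omega]

theorem cf_even (γ τ : ℕ → ℝ) (k : ℕ) : cf γ τ (2 * k) = γ k := by
  unfold cf
  rw [if_pos (by omega), show 2 * k / 2 = k by omega]

theorem cf_odd (γ τ : ℕ → ℝ) (k : ℕ) : cf γ τ (2 * k + 1) = τ k := by
  unfold cf
  rw [if_neg (by omega), show (2 * k + 1) / 2 = k by omega]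

theorem lamS_growth (n : ℕ) : 3 * lamS n ≤ lamS (n + 1) := by
  rcases Nat.even_or_odd' n with ⟨k, rfl | rfl⟩
  · rw [lamS_even, lamS_odd]
  · rw [lamS_odd, show 2 * k + 1 + 1 = 2 * (k + 1) by ring, lamS_even, Nk]
    have h1 := mk_ge k
    have h2 := Nk_pos k
    nlinarith

theorem lamS_zero : lamS 0 = 1 := by
  have := lamS_even 0
  simpa [Nk] using this

theorem PP_blocks (γ τ : ℕ → ℝ) (K : ℕ) (x : TT) :
    PP lamS (fun n => (cf γ τ n : ℂ)) (2 * K) x = ∏ k ∈ range K, GG (γ k) (τ k) (Nk k • x) := by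
  induction K with
  | zero => simp [PP]
  | succ K ih =>
    have h1 : PP lamS (fun n => (cf γ τ n : ℂ)) (2 * (K + 1)) x =
        PP lamS (fun n => (cf γ τ n : ℂ)) (2 * K) x *
        (1 + ((cf γ τ (2 * K) : ℂ) * fourier (lamS (2 * K) : ℤ) x).re) *
        (1 + ((cf γ τ (2 * K + 1) : ℂ) * fourier (lamS (2 * K + 1) : ℤ) x).re) := by
      unfold PP
      rw [show 2 * (K + 1) = 2 * K + 1 + 1 by ring, prod_range_succ, prod_range_succ]
    rw [h1, ih, prod_range_succ, cf_even, cf_odd, lamS_even, lamS_odd, mul_assoc]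
    congr 1
    have h2 : ((γ K : ℂ) * fourier (Nk K : ℤ) x).re = γ K * CC (Nk K • x) := by
      rw [fourier_nat, Complex.re_ofReal_mul, CC]
    have h3 : ((τ K : ℂ) * fourier ((3 * Nk K : ℕ) : ℤ) x).re =
        τ K * (4 * CC (Nk K • x) ^ 3 - 3 * CC (Nk K • x)) := by
      have h4 : (fourier ((3 * Nk K : ℕ) : ℤ) x : ℂ) = fourier 3 (Nk K • x) := by
        rw [fourier_apply, fourier_apply]
        congr 2
        rw [natCast_zsmul, mul_nsmul']
        norm_cast
      rw [h4, Complex.re_ofReal_mul, fourier_three_re]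
    rw [h2, h3, GG]

/-- existence, with the block form of the limit -/
theorem exists_block (γ τ : ℕ → ℝ) (hγ : ∀ k, |γ k| ≤ 1) (hτ : ∀ k, |τ k| ≤ 1) :
    ∃ μ : Measure TT, IsProbabilityMeasure μ ∧
      (∀ f : C(TT, ℝ), Tendsto (fun N => ∫ x, f x * PP lamS (fun n => (cf γ τ n : ℂ)) N x ∂mm) atTop
        (𝓝 (∫ x, f x ∂μ))) ∧ BLim Nk γ τ μ := by
  have hc : ∀ n, ‖((cf γ τ n : ℝ) : ℂ)‖ ≤ 1 := by
    intro n
    rw [Complex.norm_real, Real.norm_eq_abs]
    unfold cf
    split_ifs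
    · exact hγ _
    · exact hτ _
  obtain ⟨μ, hμ, hlim⟩ := exists_riesz (lam := lamS) (by rw [lamS_zero]) lamS_growth hc
  refine ⟨μ, hμ, hlim, ?_⟩
  intro f
  have h2 : Tendsto (fun K : ℕ => 2 * K) atTop atTop :=
    tendsto_id.const_mul_atTop' (by norm_num)
  have := (hlim f).comp h2
  refine this.congr fun K => ?_
  simp only [Function.comp_apply, PP_blocks]

theorem abs_al (k : ℕ) : |al k| < 1 := by
  have := al_bounds k
  rw [abs_lt]; constructor <;> linarith

theorem abs_be (k : ℕ) : |be k| < 1 := by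
  have := be_bounds k
  rw [abs_lt]; constructor <;> linarith

/-- singularity with the phase π -/
theorem singular_phase {μ ν : Measure TT} [IsFiniteMeasure μ] [IsFiniteMeasure ν]
    (hμ : BLim Nk al (fun k => -be k) μ) (hν : BLim Nk be (fun k => -be k) ν) : μ ⟂ₘ ν := by
  set U : ℕ → ℝ := fun K => ∑ k ∈ range K, uk k with hU
  refine ms_of_cheb (fun K x => ∑ k ∈ range K, SS (Nk k • x) ^ mk k) (fun K => ?_)
    (fun K => ∑ k ∈ range K, ∫ y, SS y ^ mk k * GG (al k) (-be k) y ∂mm)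
    (fun K => ∑ k ∈ range K, ∫ y, SS y ^ mk k * GG (be k) (-be k) y ∂mm)
    (fun K => 3 / 2 * U K) (fun K => 1 / 8 * U K) (fun K => ?_) ?_ (fun K => ?_) (fun K => ?_) ?_
  · exact continuous_finsetSum _ fun k _ => (SSc.comp (cont_dil _)).pow _
  · have h1 : ∀ k, (∫ y, SS y ^ mk k * GG (al k) (-be k) y ∂mm) + 1 / 8 * uk k ≤
        ∫ y, SS y ^ mk k * GG (be k) (-be k) y ∂mm := by
      intro k
      have := block_gap (mk_ge k)
      unfold al be uk
      linarith
    simp only [hU]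
    rw [mul_sum, ← sum_add_distrib]
    exact sum_le_sum fun k _ => h1 k
  · filter_upwards [tendsto_uk.eventually_gt_atTop 0] with K hK
    have : 0 < U K := hK
    positivity
  · refine (blk_var blk hμ K).trans ?_
    simp only [hU]
    rw [mul_sum]
    refine sum_le_sum fun k _ => ?_
    refine block_second (mk_ge k) ?_ (al_bounds k).2.le
    have h := mk_posR k
    have h2 : (0 : ℝ) < 1 / (2 * (mk k : ℝ)) := by positivity
    rw [al_eq]
    unfold be
    linarith
  · refine (blk_var blk hν K).trans ?_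
    simp only [hU]
    rw [mul_sum]
    refine sum_le_sum fun k _ => ?_
    exact block_second (mk_ge k) le_rfl (be_bounds k).2.le
  · have h1 : Tendsto (fun K => 96 * (U K)⁻¹) atTop (𝓝 0) := by
      have := (tendsto_inv_atTop_zero.comp tendsto_uk).const_mul 96
      simpa using this
    refine h1.congr' ?_
    filter_upwards [tendsto_uk.eventually_gt_atTop 0] with K hK
    have : 0 < U K := hK
    field_simp
    norm_num

theorem ac_zero {μ ν : Measure TT} [IsFiniteMeasure μ] [IsFiniteMeasure ν]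
    (hμ : BLim Nk al be μ) (hν : BLim Nk be be ν) : μ ≪ ν ∧ ν ≪ μ := by
  obtain ⟨C, hC⟩ := prod_bound
  constructor
  · refine ac_of_test (C := C) fun f t ht => ?_
    refine blk_test blk al be be hμ hν (fun k x => GG_pos (abs_be k) (abs_be k) x) (fun k x => ?_)
      hC f t ht
    have := be_bounds k
    exact GG_sq_le (by linarith) (by linarith) (by linarith) le_rfl (by linarith) x
  · refine ac_of_test (C := C) fun f t ht => ?_
    refine blk_test blk be al be hν hμ (fun k x => GG_pos (abs_al k) (abs_be k) x) (fun k x => ?_)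
      (fun K => ?_) f t ht
    · have h1 := be_bounds k
      have h2 := al_bounds k
      have h := mk_posR k
      have h3 : (0 : ℝ) < 1 / (2 * (mk k : ℝ)) := by positivity
      refine GG_sq_le (by linarith) (by linarith) (by linarith) (by rw [al_eq]; linarith) ?_ x
      unfold al be
      have : (1 : ℝ) / mk k = 2 * (1 / (2 * (mk k : ℝ))) := by field_simp
      linarith
    · refine le_trans (le_of_eq ?_) (hC K)
      refine prod_congr rfl fun k _ => ?_
      ring

/-- the phases: `0` at `N_k` and `π` at `3 N_k` -/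
noncomputable def ph (n : ℕ) : ℝ := if n % 2 = 0 then 0 else Real.pi

theorem cf_phase (γ τ : ℕ → ℝ) (n : ℕ) :
    ((cf γ τ n : ℝ) : ℂ) * Complex.exp (Complex.I * ph n) =
      ((cf γ (fun k => -τ k) n : ℝ) : ℂ) := by
  unfold cf ph
  split_ifs with h
  · simp
  · rw [mul_comm Complex.I, Complex.exp_pi_mul_I]
    push_cast
    ring

theorem norm_cf_lt {γ τ : ℕ → ℝ} (hγ : ∀ k, |γ k| < 1) (hτ : ∀ k, |τ k| < 1) (n : ℕ) :
    ‖((cf γ τ n : ℝ) : ℂ)‖ < 1 := by
  rw [Complex.norm_real, Real.norm_eq_abs]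
  unfold cf
  split_ifs
  · exact hγ _
  · exact hτ _

/-- There are a Hadamard sequence `λ` (even with `λ_{n+1} ≥ 3 λ_n`), coefficients `a`, `b` of modulus
less than `1` and phases `φ` such that the four Riesz products exist, `μ_a` and `μ_b` are
equivalent, and `μ_{a,φ}` and `μ_{b,φ}` are mutually singular; in particular `μ_a ≪ μ_b` holds
and `μ_{a,φ} ≪ μ_{b,φ}` fails. -/
theorem result :
    ∃ (q : ℝ) (lam : ℕ → ℕ) (a b : ℕ → ℂ) (φ : ℕ → ℝ)
      (μa μb μaφ μbφ : Measure (AddCircle (2 * Real.pi))),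
      1 < q ∧ 0 < lam 0 ∧ (∀ n, q < (lam (n + 1) : ℝ) / (lam n : ℝ)) ∧
      (∀ n, 3 * lam n ≤ lam (n + 1)) ∧ (∀ n, ‖a n‖ < 1) ∧ (∀ n, ‖b n‖ < 1) ∧
      IsRieszProduct lam a (fun _ => 0) μa ∧ IsRieszProduct lam b (fun _ => 0) μb ∧
      IsRieszProduct lam a φ μaφ ∧ IsRieszProduct lam b φ μbφ ∧
      (μa ≪ μb ∧ μb ≪ μa) ∧ μaφ ⟂ₘ μbφ ∧ ¬ μaφ ≪ μbφ ∧ ¬ μbφ ≪ μaφ := by
  obtain ⟨μa, ha, hla, hba⟩ := exists_block al be (fun k => (abs_al k).le) (fun k => (abs_be k).le)
  obtain ⟨μb, hb, hlb, hbb⟩ := exists_block be be (fun k => (abs_be k).le) (fun k => (abs_be k).le)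
  obtain ⟨νa, ha', hla', hba'⟩ := exists_block al (fun k => -be k) (fun k => (abs_al k).le)
    (fun k => by rw [abs_neg]; exact (abs_be k).le)
  obtain ⟨νb, hb', hlb', hbb'⟩ := exists_block be (fun k => -be k) (fun k => (abs_be k).le)
    (fun k => by rw [abs_neg]; exact (abs_be k).le)
  have hsing : νa ⟂ₘ νb := singular_phase hba' hbb'
  have hpos : ∀ n, 0 < lamS n := fun n => by
    have := lam_ge (by rw [lamS_zero]) lamS_growth n
    omega
  refine ⟨2, lamS, fun n => (cf al be n : ℂ), fun n => (cf be be n : ℂ), ph, μa, μb, νa, νb,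
    by norm_num, hpos 0, ?_, lamS_growth, norm_cf_lt abs_al abs_be, norm_cf_lt abs_be abs_be,
    ⟨inferInstance, fun f => ?_⟩, ⟨inferInstance, fun f => ?_⟩, ⟨inferInstance, fun f => ?_⟩,
    ⟨inferInstance, fun f => ?_⟩, ac_zero hba hbb, hsing, ?_, ?_⟩
  · intro n
    have h1 : (0 : ℝ) < lamS n := by exact_mod_cast hpos n
    have h2 : (3 : ℝ) * lamS n ≤ lamS (n + 1) := by exact_mod_cast lamS_growth n
    rw [lt_div_iff₀ h1]
    linarith
  · simpa [PP] using hla f
  · simpa [PP] using hlb f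
  · simp_rw [cf_phase]
    exact hla' f
  · simp_rw [cf_phase]
    exact hlb' f
  · intro hac
    have h0 : νa = 0 := Measure.eq_zero_of_absolutelyContinuous_of_mutuallySingular hac hsing
    have h1 : νa Set.univ = 1 := measure_univ
    rw [h0] at h1
    simp at h1
  · intro hac
    have h0 : νb = 0 := Measure.eq_zero_of_absolutelyContinuous_of_mutuallySingular hac hsing.symm
    have h1 : νb Set.univ = 1 := measure_univ
    rw [h0] at h1
    simp at h1

end Pool.Agent.Results.MP_b30265_an.PhaseDependence
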